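import Pool.Agent.Helper30.PF.Todd

/-!
# Asymptotic expansion of the restricted partition function, `n = 2s+1` parts
-/

namespace Pool.Agent.Helper30.PF

open Polynomial Finset

/-- the restricted partition function as a rational sequence -/
noncomputable def Pq (n : ℕ) : ℕ → ℚ := fun y => (P n y : ℚ)

lemma Pq_eq (n : ℕ) : Pq n = seq 0 (gf n) := by
  funext y
  simp [Pq, seq, gf]

lemma one_sub_mul_E (i : ℕ) : (1 - (PowerSeries.X : PowerSeries ℚ)) *
    ((E 1 i : ℚ[X]) : PowerSeries ℚ) = 1 - PowerSeries.X ^ i := by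
  rw [coe_E]
  simp only [one_mul]
  exact mul_neg_geom_sum _ _

lemma one_sub_pow_Lam (n : ℕ) : (1 - (PowerSeries.X : PowerSeries ℚ)) ^ n * (Lam n : ℚ[X]) =
    ∏ i ∈ range n, (1 - (PowerSeries.X : PowerSeries ℚ) ^ (i + 1)) := by
  have h1 : ((Lam n : ℚ[X]) : PowerSeries ℚ) = ∏ i ∈ range n, ((E 1 (i + 1) : ℚ[X]) :
      PowerSeries ℚ) := by
    rw [Lam, ← Polynomial.coeToPowerSeries.ringHom_apply, map_prod]
    simp
  rw [h1, ← Finset.card_range n, ← Finset.prod_const, Finset.card_range,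
    ← Finset.prod_mul_distrib]
  exact Finset.prod_congr rfl (fun i _ => one_sub_mul_E (i + 1))

lemma Lam_mul_gf (n : ℕ) : ((Lam n : ℚ[X]) : PowerSeries ℚ) * gf n =
    (PowerSeries.mk 1 : PowerSeries ℚ) ^ n := by
  have h1 : (1 - (PowerSeries.X : PowerSeries ℚ)) ^ n * (Lam n : ℚ[X]) * gf n = 1 := by
    rw [one_sub_pow_Lam, prod_gf]
  have h2 : (PowerSeries.mk 1 : PowerSeries ℚ) ^ n * (1 - PowerSeries.X) ^ n = 1 := by
    rw [← mul_pow, PowerSeries.mk_one_mul_one_sub_eq_one, one_pow]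
  calc ((Lam n : ℚ[X]) : PowerSeries ℚ) * gf n = ((PowerSeries.mk 1 : PowerSeries ℚ) ^ n *
        (1 - PowerSeries.X) ^ n) * (((Lam n : ℚ[X]) : PowerSeries ℚ) * gf n) := by
          rw [h2, one_mul]
    _ = (PowerSeries.mk 1 : PowerSeries ℚ) ^ n *
        ((1 - (PowerSeries.X : PowerSeries ℚ)) ^ n * (Lam n : ℚ[X]) * gf n) := by ring
    _ = _ := by rw [h1, mul_one]

lemma rev_Lam (n : ℕ) : Rev (Lam n) (Lam n : ℚ[X]) (∑ i ∈ range n, i) := by
  have h := Rev.prod (range n) (fun i => E 1 (i + 1)) (fun i => ((E 1 (i + 1) : ℚ[X]) :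
    PowerSeries ℚ)) (fun i => 1 * (i + 1 - 1)) (fun i _ => rev_E 1 (i + 1) (by omega))
  have h1 : ((Lam n : ℚ[X]) : PowerSeries ℚ) = ∏ i ∈ range n, ((E 1 (i + 1) : ℚ[X]) :
      PowerSeries ℚ) := by
    rw [Lam, ← Polynomial.coeToPowerSeries.ringHom_apply, map_prod]
    simp
  rw [h1]
  simpa [Lam] using h

lemma aeval_Lam_Pq {n : ℕ} (hn : 1 ≤ n) (y : ℕ) : aeval T (Lam n) (Pq n) y =
    ((y + n * (n + 1) / 2 - 1).choose (n - 1) : ℕ) := by
  rw [Pq_eq, rev_Lam, Lam_mul_gf, seq]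
  obtain ⟨k, rfl⟩ : ∃ k, n = k + 1 := ⟨n - 1, by omega⟩
  rw [PowerSeries.mk_one_pow_eq_mk_choose_add, PowerSeries.coeff_mk]
  have h1 : (∑ i ∈ range (k + 1), i) * 2 = (k + 1) * k := Finset.sum_range_id_mul_two (k + 1)
  have h2 : (k + 1) * (k + 1 + 1) / 2 = (∑ i ∈ range (k + 1), i) + (k + 1) := by
    apply Nat.div_eq_of_eq_mul_left (by norm_num)
    rw [Nat.add_mul (∑ i ∈ range (k + 1), i), h1]
    ring
  rw [h2]
  congr 2
  omega

lemma killed_W {n : ℕ} (hn : 1 ≤ n) : aeval T (((X : ℚ[X]) - 1) ^ n) (W n) = 0 := by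
  funext y
  rw [W, aeval_phi, phi, map_pow, map_sub, aeval_X, map_one, ← X_mul_eps, mul_pow]
  have : ex y * (PowerSeries.X ^ n * eps ^ n * (ex ((n : ℚ) * (n + 1) / 4) * Th n)) =
      PowerSeries.X ^ n * (ex y * (eps ^ n * (ex ((n : ℚ) * (n + 1) / 4) * Th n))) := by ring
  rw [this, PowerSeries.coeff_X_pow_mul', if_neg (by omega)]
  rfl

lemma killed_U {n : ℕ} (hn : 1 ≤ n) : aeval T (Lam n) (Pq n - W n) = 0 := by
  rw [map_sub]
  funext y
  rw [Pi.sub_apply, aeval_Lam_Pq hn, aeval_Lam_W hn, sub_self]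
  rfl

/-- the index shift of the cofactor -/
def dM (s : ℕ) : ℕ := (∑ h ∈ range (s + 1), 1 * (2 * h + 1 - 1)) + ∑ h ∈ range s, 2 * (h + 1 - 1)

lemma rev_M (s : ℕ) : Rev (M s) (M s : ℚ[X]) (dM s) := by
  have h := (Rev.prod (range (s + 1)) (fun h => E 1 (2 * h + 1))
    (fun h => ((E 1 (2 * h + 1) : ℚ[X]) : PowerSeries ℚ)) (fun h => 1 * (2 * h + 1 - 1))
    (fun h _ => rev_E 1 (2 * h + 1) (by omega))).mul
    (Rev.prod (range s) (fun h => E 2 (h + 1))
    (fun h => ((E 2 (h + 1) : ℚ[X]) : PowerSeries ℚ)) (fun h => 2 * (h + 1 - 1))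
    (fun h _ => rev_E 2 (h + 1) (by omega)))
  have h1 : ((M s : ℚ[X]) : PowerSeries ℚ) = (∏ h ∈ range (s + 1), ((E 1 (2 * h + 1) : ℚ[X]) :
      PowerSeries ℚ)) * ∏ h ∈ range s, ((E 2 (h + 1) : ℚ[X]) : PowerSeries ℚ) := by
    rw [M, ← Polynomial.coeToPowerSeries.ringHom_apply, map_mul, map_prod, map_prod]
    simp
  rw [h1]
  exact h

lemma even_dM (s : ℕ) : Even (dM s) := by
  unfold dM
  apply Even.add
  · apply Finset.even_sum
    intro h _
    rw [one_mul, Nat.add_sub_cancel]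
    exact even_two_mul h
  · apply Finset.even_sum
    intro h _
    exact even_two_mul _

lemma coeff_of_one_add_mul {F : PowerSeries ℚ} (h : (1 + PowerSeries.X) * F = 1) (k : ℕ) :
    PowerSeries.coeff k F = (-1) ^ k := by
  induction k with
  | zero =>
    have := congrArg PowerSeries.constantCoeff h
    simpa using this
  | succ k ih =>
    have := congrArg (PowerSeries.coeff (k + 1)) h
    rw [add_mul, one_mul, map_add, PowerSeries.coeff_succ_X_mul, ih] at this
    rw [PowerSeries.coeff_one, if_neg (Nat.succ_ne_zero k)] at this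
    rw [pow_succ]
    linarith

/-- a sequence killed by `T + 1` -/
lemma aeval_alt (f : ℕ → ℚ) (hf : aeval T (X + 1 : ℚ[X]) f = 0) (p : ℚ[X]) :
    aeval T p f = p.eval (-1) • f := by
  have h1 : (X - C (-1 : ℚ)) ∣ p - C (p.eval (-1)) := X_sub_C_dvd_sub_C_eval
  obtain ⟨q, hq⟩ := h1
  have h2 : p = q * (X + 1) + C (p.eval (-1)) := by
    have : (X - C (-1 : ℚ)) = X + 1 := by simp
    rw [this] at hq
    rw [mul_comm, ← hq]
    ring
  calc aeval T p f = aeval T (q * (X + 1) + C (p.eval (-1))) f := by rw [← h2]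
    _ = p.eval (-1) • f := by
      rw [map_add, LinearMap.add_apply, aeval_mul_apply, hf, map_zero, zero_add, aeval_C,
        Module.algebraMap_end_apply]

lemma twist (k : ℕ) : ∀ (f : ℕ → ℚ) (y : ℕ),
    aeval T (((X : ℚ[X]) - 1) ^ k) (fun y => (-1) ^ y * f y) y =
      (-1) ^ k * ((-1) ^ y * aeval T ((X + 1 : ℚ[X]) ^ k) f y) := by
  induction k with
  | zero => intro f y; simp
  | succ k ih =>
    intro f y
    rw [pow_succ, aeval_mul_apply]
    have h1 : aeval T ((X : ℚ[X]) - 1) (fun y => (-1) ^ y * f y) =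
        fun y => (-1) ^ y * (-(aeval T (X + 1 : ℚ[X]) f) y) := by
      funext z
      have h := aeval_X_pow_sub_one 1 (fun y => (-1) ^ y * f y) z
      rw [pow_one] at h
      rw [h, map_add, aeval_X, map_one, LinearMap.add_apply, Pi.add_apply, T_apply,
        Module.End.one_apply, pow_succ]
      ring
    rw [h1, ih]
    have h2 : (fun y => -(aeval T (X + 1 : ℚ[X]) f) y) = -(aeval T (X + 1 : ℚ[X]) f) := rfl
    rw [h2, map_neg, Pi.neg_apply, ← aeval_mul_apply, ← pow_succ, pow_succ (-1 : ℚ) k]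
    ring

/-- the coefficient of the alternating term -/
noncomputable def v (s : ℕ) : ℚ := 1 / (s.factorial * (s - 1).factorial * 2 ^ (2 * s + 1))

lemma v_pos (s : ℕ) : 0 < v s := by
  unfold v
  positivity

lemma structure_P {s : ℕ} (hs : 1 ≤ s) : ∃ (p : ℚ[X]) (f : ℕ → ℚ),
    p.natDegree ≤ s - 1 ∧ p.coeff (s - 1) = v s ∧ aeval T (M s) f = 0 ∧
    ∀ y : ℕ, Pq (2 * s + 1) y = W (2 * s + 1) y + (-1) ^ y * p.eval (y : ℚ) + f y := by
  set n := 2 * s + 1 with hn
  set U := Pq n - W n with hU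
  have hkU : aeval T (Lam n) U = 0 := killed_U (by omega)
  rw [hn, Lam_eq] at hkU
  obtain ⟨a, b, hab⟩ := coprime_M s
  set U3 := aeval T (a * (X + 1) ^ s) U with hU3
  set U2 := aeval T (b * M s) U with hU2
  have hsum : U = U2 + U3 := by
    have : aeval T (a * (X + 1) ^ s + b * M s) U = U := by
      rw [hab, map_one, Module.End.one_apply]
    rw [map_add, LinearMap.add_apply] at this
    rw [add_comm]
    exact this.symm
  have h3 : aeval T (M s) U3 = 0 := by
    rw [hU3, ← aeval_mul_apply]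
    have : M s * (a * (X + 1) ^ s) = a * ((X + 1) ^ s * M s) := by ring
    rw [this, aeval_mul_apply, hkU, map_zero]
  have h2 : aeval T ((X + 1 : ℚ[X]) ^ s) U2 = 0 := by
    rw [hU2, ← aeval_mul_apply]
    have : (X + 1) ^ s * (b * M s) = b * ((X + 1) ^ s * M s) := by ring
    rw [this, aeval_mul_apply, hkU, map_zero]
  set f0 := aeval T ((X + 1 : ℚ[X]) ^ (s - 1)) U2 with hf0
  have hs1 : s - 1 + 1 = s := by omega
  have hf0k : aeval T (X + 1 : ℚ[X]) f0 = 0 := by
    rw [hf0, ← aeval_mul_apply, ← pow_succ', hs1, h2]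
  -- the value of the operator on `P`
  have hP : Pq n = W n + (U2 + U3) := by
    rw [← hsum, hU]
    simp
  set p0 : ℚ[X] := M s * (X - 1) ^ n * (X + 1) ^ (s - 1) with hp0
  have hval : aeval T p0 (Pq n) 0 = (-1) ^ s := by
    have hrev : Rev p0 (((M s : ℚ[X]) : PowerSeries ℚ) * (1 - PowerSeries.X) ^ n *
        (1 + PowerSeries.X) ^ (s - 1)) (dM s + n * 1 + (s - 1) * 1) :=
      ((rev_M s).mul (rev_X_sub_one.pow n)).mul (rev_X_add_one.pow (s - 1))
    rw [Pq_eq, hrev, seq]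
    have h1 : (1 + PowerSeries.X) * (((M s : ℚ[X]) : PowerSeries ℚ) * (1 - PowerSeries.X) ^ n *
        (1 + PowerSeries.X) ^ (s - 1) * gf n) = 1 := by
      have h4 : ((Lam n : ℚ[X]) : PowerSeries ℚ) = (1 + PowerSeries.X) ^ s *
          ((M s : ℚ[X]) : PowerSeries ℚ) := by
        rw [hn, Lam_eq, ← Polynomial.coeToPowerSeries.ringHom_apply, map_mul, map_pow, map_add]
        simp [add_comm]
      have h5 := one_sub_pow_Lam n
      rw [h4] at h5
      have h6 := prod_gf n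
      have h7 : (1 + PowerSeries.X : PowerSeries ℚ) ^ s = (1 + PowerSeries.X) *
          (1 + PowerSeries.X) ^ (s - 1) := by
        rw [← pow_succ', hs1]
      rw [← h5, h7] at h6
      have h8 : (1 + PowerSeries.X) * (((M s : ℚ[X]) : PowerSeries ℚ) *
          (1 - PowerSeries.X) ^ n * (1 + PowerSeries.X) ^ (s - 1) * gf n) =
          (1 - PowerSeries.X) ^ n * ((1 + PowerSeries.X) * (1 + PowerSeries.X) ^ (s - 1) *
            ((M s : ℚ[X]) : PowerSeries ℚ)) * gf n := by ring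
      exact h8.trans h6
    rw [coeff_of_one_add_mul h1]
    have h8 : 0 + (0 + (dM s + n * 1 + (s - 1) * 1)) = dM s + 2 * s + s := by omega
    rw [h8, pow_add, pow_add, (even_dM s).neg_one_pow, pow_mul]
    simp
  have hval2 : aeval T p0 (Pq n) 0 = s.factorial * (-2) ^ n * f0 0 := by
    rw [hP, map_add, map_add]
    have e1 : aeval T p0 (W n) = 0 := by
      have : p0 = (M s * (X + 1) ^ (s - 1)) * (X - 1) ^ n := by rw [hp0]; ring
      rw [this, aeval_mul_apply, killed_W (by omega), map_zero]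
    have e2 : aeval T p0 U3 = 0 := by
      have : p0 = ((X - 1) ^ n * (X + 1) ^ (s - 1)) * M s := by rw [hp0]; ring
      rw [this, aeval_mul_apply, h3, map_zero]
    have e3 : aeval T p0 U2 = (s.factorial * (-2) ^ n : ℚ) • f0 := by
      rw [hp0, aeval_mul_apply, ← hf0, aeval_alt f0 hf0k, eval_mul, eval_M, eval_pow, eval_sub,
        eval_X, eval_one]
      norm_num
    rw [e1, e2, e3]
    simp
  have hf00 : f0 0 = (-1) ^ (s + 1) / (s.factorial * 2 ^ n) := by
    have h1 := hval.symm.trans hval2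
    have h4 : (s.factorial : ℚ) ≠ 0 := by exact_mod_cast Nat.factorial_ne_zero s
    have h5 : ((-2 : ℚ)) ^ n = -(2 ^ n) := by
      rw [hn]
      exact Odd.neg_pow ⟨s, rfl⟩ 2
    rw [h5] at h1
    rw [eq_div_iff (by positivity), pow_succ (-1 : ℚ) s, h1]
    ring
  -- the polynomial of the alternating part
  have hg : aeval T (((X : ℚ[X]) - 1) ^ (s - 1 + 1)) (fun y => (-1) ^ y * U2 y) = 0 := by
    funext y
    rw [hs1, twist, h2]
    simp
  obtain ⟨p, hp1, hp2, hp3⟩ := poly_of_killed (s - 1) _ hg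
  refine ⟨p, U3, hp1, ?_, h3, fun y => ?_⟩
  · rw [hp2, twist, ← hf0, hf00, v, hn]
    have h4 : (s.factorial : ℚ) ≠ 0 := by exact_mod_cast Nat.factorial_ne_zero s
    have h5 : ((s - 1).factorial : ℚ) ≠ 0 := by exact_mod_cast Nat.factorial_ne_zero (s - 1)
    have h6 : (-1 : ℚ) ^ (s - 1) * (-1) ^ (s + 1) = 1 := by
      rw [← pow_add]
      have : s - 1 + (s + 1) = 2 * s := by omega
      rw [this, pow_mul]
      simp
    rw [pow_zero, one_mul, ← mul_div_assoc, h6, div_div]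
    congr 1
    ring
  · have h1 := congrFun hP y
    simp only [Pi.add_apply] at h1
    rw [h1, ← hp3]
    have : (-1 : ℚ) ^ y * ((-1) ^ y * U2 y) = U2 y := by
      rw [← mul_assoc, ← pow_add, ← two_mul, pow_mul]
      simp
    rw [this]
    ring


end Pool.Agent.Helper30.PF
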