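import Pool.Agent.Helper30.PF.Asym

/-!
# Asymptotic expansion of the restricted partition function, `n = 2s+1` parts (II)
-/

namespace Pool.Agent.Helper30.PF

open Polynomial Finset

lemma deg_aux {s : ℕ} (hs : 2 ≤ s) (p : ℚ[X]) (hp : p.natDegree ≤ s - 1)
    (hpc : p.coeff (s - 1) = v s) : (p - C (v s) * X ^ (s - 1)).natDegree ≤ s - 2 := by
  rw [natDegree_le_iff_coeff_eq_zero]
  intro k hk
  rw [coeff_sub, coeff_C_mul, coeff_X_pow]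
  by_cases hk2 : k = s - 1
  · rw [if_pos hk2, hk2, hpc]
    ring
  · rw [if_neg hk2, mul_zero, sub_zero]
    exact coeff_eq_zero_of_natDegree_lt (by omega)

lemma pf_aux {a b c u g : ℚ} (y : ℕ) (h : a = b + (-1) ^ y * c + g) :
    a - b - (-1) ^ y * u = (-1) ^ y * (c - u) + g := by
  rw [h]; ring

lemma pf_aux2 (y : ℕ) (c g A B : ℚ) (h1 : |c| ≤ A) (h2 : |g| ≤ B) :
    |(-1) ^ y * c + g| ≤ A + B := by
  calc |(-1) ^ y * c + g| ≤ |(-1) ^ y * c| + |g| := abs_add_le _ _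
    _ = |c| + |g| := by rw [abs_mul, abs_pow, abs_neg, abs_one, one_pow, one_mul]
    _ ≤ A + B := add_le_add h1 h2

/-- coarse expansion -/
theorem P_coarse {s : ℕ} (hs : 1 ≤ s) : ∃ C : ℚ, 0 ≤ C ∧ ∀ y : ℕ,
    |Pq (2 * s + 1) y - W (2 * s + 1) y| ≤ C * ((y : ℚ) + 1) ^ (s - 1) := by
  obtain ⟨p, f, hp, -, hf, h⟩ := structure_P hs
  obtain ⟨C1, hC1, h1⟩ := poly_growth p hp
  obtain ⟨C2, hC2, h2⟩ := growth_M hs f hf
  refine ⟨C1 + C2, add_nonneg hC1 hC2, fun y => ?_⟩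
  have h3 : Pq (2 * s + 1) y - W (2 * s + 1) y = (-1) ^ y * p.eval (y : ℚ) + f y := by
    rw [h y]; ring
  rw [h3, add_mul]
  have h5 : ((y : ℚ) + 1) ^ ((2 * s + 1) / 3 - 1) ≤ ((y : ℚ) + 1) ^ (s - 1) := by
    apply pow_le_pow_right₀
    · have : (0 : ℚ) ≤ y := by positivity
      linarith
    · omega
  have h6 : |f y| ≤ C2 * ((y : ℚ) + 1) ^ (s - 1) :=
    (h2 y).trans (mul_le_mul_of_nonneg_left h5 hC2)
  exact pf_aux2 y _ _ _ _ (h1 y) h6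

/-- fine expansion -/
theorem P_fine {s : ℕ} (hs : 2 ≤ s) : ∃ C : ℚ, 0 ≤ C ∧ ∀ y : ℕ,
    |Pq (2 * s + 1) y - W (2 * s + 1) y - (-1) ^ y * (v s * (y : ℚ) ^ (s - 1))| ≤
      C * ((y : ℚ) + 1) ^ (s - 2) := by
  obtain ⟨p, f, hp, hpc, hf, h⟩ := structure_P (show 1 ≤ s by omega)
  have hdeg : (p - C (v s) * X ^ (s - 1)).natDegree ≤ s - 2 := deg_aux hs p hp hpc
  obtain ⟨C1, hC1, h1⟩ := poly_growth _ hdeg
  obtain ⟨C2, hC2, h2⟩ := growth_M (show 1 ≤ s by omega) f hf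
  refine ⟨C1 + C2, add_nonneg hC1 hC2, fun y => ?_⟩
  rw [pf_aux y (h y)]
  have h4 := h1 y
  rw [eval_sub, eval_mul, eval_C, eval_pow, eval_X] at h4
  have h5 : ((y : ℚ) + 1) ^ ((2 * s + 1) / 3 - 1) ≤ ((y : ℚ) + 1) ^ (s - 2) := by
    apply pow_le_pow_right₀
    · have : (0 : ℚ) ≤ y := by positivity
      linarith
    · omega
  have h6 : |f y| ≤ C2 * ((y : ℚ) + 1) ^ (s - 2) :=
    (h2 y).trans (mul_le_mul_of_nonneg_left h5 hC2)
  rw [add_mul]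
  exact pf_aux2 y _ _ _ _ h4 h6

end Pool.Agent.Helper30.PF
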