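import Mathlib

/-!
# Restricted partition functions: definition and generating function
-/

namespace Pool.Agent.Helper30.PF

open PowerSeries Finset

/-- `P m k`: the number of partitions of `k` into parts from `{1, …, m}`, i.e. the number of
tuples `u` of natural numbers with `∑ (i+1) u_i = k`. -/
noncomputable def P (m k : ℕ) : ℕ :=
  Nat.card {u : Fin m → ℕ // ∑ i : Fin m, (i.val + 1) * u i = k}

lemma finite_sol (m k : ℕ) : Finite {u : Fin m → ℕ // ∑ i : Fin m, (i.val + 1) * u i = k} := by
  have : {u : Fin m → ℕ | ∑ i : Fin m, (i.val + 1) * u i = k} ⊆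
      Set.Iic (fun _ => k) := by
    intro u hu i
    have h1 : (i.val + 1) * u i ≤ ∑ i : Fin m, (i.val + 1) * u i :=
      Finset.single_le_sum (f := fun i : Fin m => (i.val + 1) * u i)
        (fun _ _ => Nat.zero_le _) (Finset.mem_univ i)
    have h2 : u i ≤ (i.val + 1) * u i := Nat.le_mul_of_pos_left _ (Nat.succ_pos _)
    exact le_trans h2 (le_trans h1 (le_of_eq hu))
  exact (Set.finite_Iic _).subset this |>.to_subtype

lemma P_zero (k : ℕ) : P 0 k = if k = 0 then 1 else 0 := by
  unfold P
  by_cases h : k = 0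
  · subst h
    simp
  · rw [if_neg h]
    have : IsEmpty {u : Fin 0 → ℕ // ∑ i : Fin 0, (i.val + 1) * u i = k} :=
      ⟨fun u => h (by simpa using u.2.symm)⟩
    exact Nat.card_of_isEmpty

/-- splitting off the solutions which use the part `m+1` -/
noncomputable def splitEquiv (m k : ℕ) :
    {u : Fin (m + 1) → ℕ // ∑ i : Fin (m + 1), (i.val + 1) * u i = k} ≃
      {u : Fin m → ℕ // ∑ i : Fin m, (i.val + 1) * u i = k} ⊕
      {u : Fin (m + 1) → ℕ // (∑ i : Fin (m + 1), (i.val + 1) * u i) + (m + 1) = k} where
  toFun u := if h : u.1 (Fin.last m) = 0 then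
      Sum.inl ⟨fun i => u.1 i.castSucc, by
        have := u.2
        rw [Fin.sum_univ_castSucc, h] at this
        simpa using this⟩
    else Sum.inr ⟨Function.update u.1 (Fin.last m) (u.1 (Fin.last m) - 1), by
        have := u.2
        rw [Fin.sum_univ_castSucc] at this ⊢
        simp only [Function.update_self, Fin.val_castSucc, Fin.val_last] at this ⊢
        have h2 : ∀ i : Fin m, Function.update u.1 (Fin.last m) (u.1 (Fin.last m) - 1) i.castSucc
            = u.1 i.castSucc := fun i => Function.update_of_ne (Fin.castSucc_lt_last i).ne _ _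
        simp only [h2]
        obtain ⟨c, hc⟩ := Nat.exists_eq_succ_of_ne_zero h
        rw [hc] at this ⊢
        simp only [Nat.succ_eq_add_one, Nat.add_sub_cancel] at this ⊢
        nlinarith [this]⟩
  invFun := Sum.elim
    (fun v => ⟨Fin.snoc v.1 0, by
      rw [Fin.sum_univ_castSucc]
      simpa using v.2⟩)
    (fun v => ⟨Function.update v.1 (Fin.last m) (v.1 (Fin.last m) + 1), by
      have := v.2
      rw [Fin.sum_univ_castSucc] at this ⊢
      simp only [Function.update_self, Fin.val_castSucc, Fin.val_last] at this ⊢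
      have h2 : ∀ i : Fin m, Function.update v.1 (Fin.last m) (v.1 (Fin.last m) + 1) i.castSucc
          = v.1 i.castSucc := fun i => Function.update_of_ne (Fin.castSucc_lt_last i).ne _ _
      simp only [h2]
      nlinarith [this]⟩)
  left_inv u := by
    by_cases h : u.1 (Fin.last m) = 0
    · simp only [h, dif_pos, Sum.elim_inl]
      apply Subtype.ext
      funext i
      refine Fin.lastCases ?_ (fun j => ?_) i
      · simp [h]
      · simp
    · simp only [h, dif_neg, not_false_eq_true, Sum.elim_inr]
      apply Subtype.ext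
      funext i
      refine Fin.lastCases ?_ (fun j => ?_) i
      · simp only [Function.update_self]
        omega
      · have h3 := (Fin.castSucc_lt_last j).ne
        simp only [Function.update_of_ne h3]
  right_inv v := by
    rcases v with v | v
    · simp
    · simp

lemma P_succ_lt {m k : ℕ} (h : k < m + 1) : P (m + 1) k = P m k := by
  unfold P
  haveI := finite_sol m k
  haveI := finite_sol (m + 1) k
  have he : IsEmpty {u : Fin (m + 1) → ℕ //
      (∑ i : Fin (m + 1), (i.val + 1) * u i) + (m + 1) = k} :=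
    ⟨fun u => by have := u.2; omega⟩
  rw [Nat.card_congr (splitEquiv m k), Nat.card_congr (Equiv.sumEmpty _ _)]

lemma P_succ_add (m k : ℕ) : P (m + 1) (k + (m + 1)) = P m (k + (m + 1)) + P (m + 1) k := by
  unfold P
  haveI := finite_sol m (k + (m + 1))
  haveI := finite_sol (m + 1) k
  have e : {u : Fin (m + 1) → ℕ //
      (∑ i : Fin (m + 1), (i.val + 1) * u i) + (m + 1) = k + (m + 1)} ≃
      {u : Fin (m + 1) → ℕ // (∑ i : Fin (m + 1), (i.val + 1) * u i) = k} :=
    Equiv.subtypeEquivRight (fun u => by omega)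
  rw [Nat.card_congr (splitEquiv m (k + (m + 1)))]
  haveI : Finite {u : Fin (m + 1) → ℕ //
      (∑ i : Fin (m + 1), (i.val + 1) * u i) + (m + 1) = k + (m + 1)} := Finite.of_equiv _ e.symm
  rw [Nat.card_sum, Nat.card_congr e]

/-- the generating function -/
noncomputable def gf (m : ℕ) : ℚ⟦X⟧ := PowerSeries.mk (fun k => (P m k : ℚ))

lemma gf_zero : gf 0 = 1 := by
  ext k
  simp only [gf, coeff_mk, P_zero, coeff_one]
  split_ifs <;> simp

lemma gf_succ (m : ℕ) : (1 - (X : ℚ⟦X⟧) ^ (m + 1)) * gf (m + 1) = gf m := by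
  ext k
  rw [sub_mul, one_mul, map_sub, coeff_X_pow_mul']
  simp only [gf, coeff_mk]
  by_cases h : m + 1 ≤ k
  · obtain ⟨j, rfl⟩ := Nat.exists_eq_add_of_le' h
    rw [if_pos h, Nat.add_sub_cancel, P_succ_add]
    push_cast
    ring
  · rw [if_neg h, P_succ_lt (not_le.mp h)]
    simp

lemma prod_gf (m : ℕ) : (∏ i ∈ range m, (1 - (X : ℚ⟦X⟧) ^ (i + 1))) * gf m = 1 := by
  induction m with
  | zero => simp [gf_zero]
  | succ m ih =>
    rw [prod_range_succ, mul_assoc, gf_succ, ih]

lemma P_zero_right (m : ℕ) : P m 0 = 1 := by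
  induction m with
  | zero => simp [P_zero]
  | succ m ih => rw [P_succ_lt (Nat.succ_pos m), ih]

end Pool.Agent.Helper30.PF
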