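import Pool.Agent.Helper30.PF.TwoAdic
import Pool.Agent.Helper66.PF.Glue
import Pool.Agent.Helper66.PF.Int2

/-!
# Finiteness of the solutions of `P m x = P n y`
-/

namespace Pool.Agent.Helper30.PF

open Polynomial Filter

lemma taylor_top (f : ℚ[X]) {n : ℕ} (h : f.natDegree ≤ n) (a : ℚ) :
    (taylor a f).coeff n = f.coeff n := by
  rw [taylor_coeff]
  rcases h.lt_or_eq with h | h
  · rw [hasseDeriv_eq_zero_of_lt_natDegree _ _ h, coeff_eq_zero_of_natDegree_lt h]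
    simp
  · subst h
    rw [hasseDeriv_natDegree_eq_C]
    simp

/-- the centre of symmetry -/
noncomputable def sh (s : ℕ) : ℚ := ((2 * s + 1 : ℕ) : ℚ) * (((2 * s + 1 : ℕ) : ℚ) + 1) / 4

/-- `β * G(y + n(n+1)/4)` -/
noncomputable def B (s : ℕ) (β : ℚ) : ℚ[X] := C β * taylor (sh s) (G s)

lemma natDegree_B (s : ℕ) {β : ℚ} (hβ : β ≠ 0) : (B s β).natDegree = s := by
  rw [B, natDegree_C_mul hβ, natDegree_taylor, natDegree_G]

lemma leadingCoeff_B (s : ℕ) (β : ℚ) : (B s β).leadingCoeff = β := by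
  rw [B, leadingCoeff_mul, leadingCoeff_C, leadingCoeff_taylor, leadingCoeff_G, mul_one]

/-- the exact identity for the remainder -/
lemma rem_eq (s : ℕ) {μ β : ℚ}
    (hβ : β ^ 2 * ((2 * s).factorial * (2 * s + 1).factorial) = μ) (y : ℕ) :
    μ * Pq (2 * s + 1) y - (B s β).eval (y : ℚ) ^ 2 =
      μ * (Pq (2 * s + 1) y - W (2 * s + 1) y) +
        β ^ 2 * (taylor (sh s) (D s)).eval (y : ℚ) := by
  have h1 := W_eq s y
  rw [B, D, eval_mul, eval_C, taylor_eval, taylor_eval, eval_sub, eval_mul]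
  rw [show (y : ℚ) + ((2 * s + 1 : ℕ) : ℚ) * (((2 * s + 1 : ℕ) : ℚ) + 1) / 4 = (y : ℚ) + sh s
    from rfl] at h1
  rw [← h1, ← hβ]
  ring

lemma two_pow_bound (k y : ℕ) (hy : 1 ≤ y) : ((y : ℚ) + 1) ^ k ≤ 2 ^ k * (y : ℚ) ^ k := by
  rw [← mul_pow]
  have h : (1 : ℚ) ≤ y := by exact_mod_cast hy
  exact pow_le_pow_left₀ (by linarith) (by linarith) k

/-- `μ P_n` is close to the square of `B` -/
lemma close {s : ℕ} (hs : 1 ≤ s) {μ β : ℚ} (hμ : 0 < μ)
    (hβ : β ^ 2 * ((2 * s).factorial * (2 * s + 1).factorial) = μ) :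
    ∃ C : ℚ, ∀ᶠ y : ℕ in atTop, |μ * Pq (2 * s + 1) y - (B s β).eval (y : ℚ) ^ 2| ≤
      C * (y : ℚ) ^ (s - 1) := by
  obtain ⟨C1, hC1, h1⟩ := P_coarse hs
  have hdeg : (taylor (sh s) (D s)).natDegree ≤ s - 1 := by
    rw [natDegree_taylor]
    exact natDegree_D hs
  obtain ⟨C2, hC2, h2⟩ := poly_growth _ hdeg
  refine ⟨(μ * C1 + β ^ 2 * C2) * 2 ^ (s - 1), ?_⟩
  filter_upwards [eventually_ge_atTop 1] with y hy
  rw [rem_eq s hβ y]
  have h3 := h1 y
  have h4 := h2 y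
  have h5 : |μ * (Pq (2 * s + 1) y - W (2 * s + 1) y)| ≤ μ * (C1 * ((y : ℚ) + 1) ^ (s - 1)) := by
    rw [abs_mul, abs_of_pos hμ]
    exact mul_le_mul_of_nonneg_left h3 hμ.le
  have h6 : |β ^ 2 * (taylor (sh s) (D s)).eval (y : ℚ)| ≤
      β ^ 2 * (C2 * ((y : ℚ) + 1) ^ (s - 1)) := by
    rw [abs_mul, abs_of_nonneg (sq_nonneg β)]
    exact mul_le_mul_of_nonneg_left h4 (sq_nonneg β)
  refine (abs_add_le _ _).trans ((add_le_add h5 h6).trans ?_)
  have h7 : μ * (C1 * ((y : ℚ) + 1) ^ (s - 1)) + β ^ 2 * (C2 * ((y : ℚ) + 1) ^ (s - 1)) =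
      (μ * C1 + β ^ 2 * C2) * ((y : ℚ) + 1) ^ (s - 1) := by ring
  rw [h7, mul_assoc]
  exact mul_le_mul_of_nonneg_left (two_pow_bound _ y hy) (by positivity)

lemma deg_aux' {s : ℕ} (hs : 2 ≤ s) (p : ℚ[X]) (c : ℚ) (hp : p.natDegree ≤ s - 1)
    (hpc : p.coeff (s - 1) = c) : (p - C c * X ^ (s - 1)).natDegree ≤ s - 2 := by
  rw [natDegree_le_iff_coeff_eq_zero]
  intro k hk
  rw [coeff_sub, coeff_C_mul, coeff_X_pow]
  by_cases hk2 : k = s - 1
  · rw [if_pos hk2, hk2, hpc]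
    ring
  · rw [if_neg hk2, mul_zero, sub_zero]
    exact coeff_eq_zero_of_natDegree_lt (by omega)

lemma lower_aux (a b e c C3 Y Y' : ℚ) (sgn : ℚ) (hsgn : sgn = 1 ∨ sgn = -1)
    (h1 : 2 * c ≤ |a + b|) (h2 : 2 * c ≤ |a - b|) (hY : 0 ≤ Y) (he : |e| ≤ C3 * Y')
    (h3 : C3 * Y' ≤ c * Y) : c * Y ≤ |(a + sgn * b) * Y + e| := by
  have h4 : 2 * c ≤ |a + sgn * b| := by
    rcases hsgn with rfl | rfl
    · rw [one_mul]; exact h1
    · rw [neg_one_mul, ← sub_eq_add_neg]; exact h2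
  have h5 : 2 * c * Y ≤ |(a + sgn * b) * Y| := by
    rw [abs_mul, abs_of_nonneg hY]
    exact mul_le_mul_of_nonneg_right h4 hY
  have h6 : |(a + sgn * b) * Y| ≤ |(a + sgn * b) * Y + e| + |e| := by
    have := abs_sub ((a + sgn * b) * Y + e) e
    rwa [add_sub_cancel_right] at this
  linarith

/-- the remainder has exact order `y^(s-1)` -/
lemma lower {s : ℕ} (hs : 2 ≤ s) {μ β : ℚ} (hμ : 0 < μ)
    (hβ : β ^ 2 * ((2 * s).factorial * (2 * s + 1).factorial) = μ)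
    (hne : 2 * sq (cc s) (s + 1) ≠ ((2 * s).factorial * (2 * s + 1).factorial) * v s)
    (hne' : 2 * sq (cc s) (s + 1) ≠ -(((2 * s).factorial * (2 * s + 1).factorial) * v s)) :
    ∃ c : ℚ, 0 < c ∧ ∀ᶠ y : ℕ in atTop,
      c * (y : ℚ) ^ (s - 1) ≤ |μ * Pq (2 * s + 1) y - (B s β).eval (y : ℚ) ^ 2| := by
  have hβ0 : β ^ 2 ≠ 0 := by
    intro h
    rw [h, zero_mul] at hβ
    exact hμ.ne hβ
  set κ := 2 * sq (cc s) (s + 1) with hκ
  obtain ⟨C1, hC1, h1⟩ := P_fine hs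
  have hdeg : (taylor (sh s) (D s) - C κ * X ^ (s - 1)).natDegree ≤ s - 2 := by
    apply deg_aux' hs
    · rw [natDegree_taylor]
      exact natDegree_D (by omega)
    · rw [taylor_top _ (natDegree_D (by omega)), coeff_D (by omega)]
  obtain ⟨C2, hC2, h2⟩ := poly_growth _ hdeg
  have hp1 : 0 < |β ^ 2 * κ + μ * v s| := by
    rw [abs_pos]
    intro h
    apply hne'
    have h3 : β ^ 2 * (κ + ((2 * s).factorial * (2 * s + 1).factorial) * v s) = 0 := by
      rw [← h, ← hβ]; ring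
    rcases mul_eq_zero.mp h3 with h3 | h3
    · exact absurd h3 hβ0
    · linarith
  have hp2 : 0 < |β ^ 2 * κ - μ * v s| := by
    rw [abs_pos]
    intro h
    apply hne
    have h3 : β ^ 2 * (κ - ((2 * s).factorial * (2 * s + 1).factorial) * v s) = 0 := by
      rw [← h, ← hβ]; ring
    rcases mul_eq_zero.mp h3 with h3 | h3
    · exact absurd h3 hβ0
    · linarith
  set c := min (|β ^ 2 * κ + μ * v s|) (|β ^ 2 * κ - μ * v s|) / 2 with hc
  have hc0 : 0 < c := by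
    rw [hc]
    exact half_pos (lt_min hp1 hp2)
  have hc1 : 2 * c ≤ |β ^ 2 * κ + μ * v s| := by
    rw [hc]
    have := min_le_left (|β ^ 2 * κ + μ * v s|) (|β ^ 2 * κ - μ * v s|)
    linarith
  have hc2 : 2 * c ≤ |β ^ 2 * κ - μ * v s| := by
    rw [hc]
    have := min_le_right (|β ^ 2 * κ + μ * v s|) (|β ^ 2 * κ - μ * v s|)
    linarith
  set C3 := (μ * C1 + β ^ 2 * C2) * 2 ^ (s - 2) with hC3
  have hC30 : 0 ≤ C3 := by positivity
  refine ⟨c, hc0, ?_⟩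
  obtain ⟨N, hN⟩ := exists_nat_gt (C3 / c)
  filter_upwards [eventually_ge_atTop 1, eventually_ge_atTop N] with y hy hyN
  rw [rem_eq s hβ y]
  set e1 := Pq (2 * s + 1) y - W (2 * s + 1) y - (-1) ^ y * (v s * (y : ℚ) ^ (s - 1)) with he1
  set e2 := (taylor (sh s) (D s) - C κ * X ^ (s - 1)).eval (y : ℚ) with he2
  have h4 : |e1| ≤ C1 * ((y : ℚ) + 1) ^ (s - 2) := h1 y
  have h5 : |e2| ≤ C2 * ((y : ℚ) + 1) ^ (s - 2) := h2 y
  have h6 : |μ * e1 + β ^ 2 * e2| ≤ C3 * (y : ℚ) ^ (s - 2) := by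
    have h7 : |μ * e1| ≤ μ * (C1 * ((y : ℚ) + 1) ^ (s - 2)) := by
      rw [abs_mul, abs_of_pos hμ]
      exact mul_le_mul_of_nonneg_left h4 hμ.le
    have h8 : |β ^ 2 * e2| ≤ β ^ 2 * (C2 * ((y : ℚ) + 1) ^ (s - 2)) := by
      rw [abs_mul, abs_of_nonneg (sq_nonneg β)]
      exact mul_le_mul_of_nonneg_left h5 (sq_nonneg β)
    refine (abs_add_le _ _).trans ((add_le_add h7 h8).trans ?_)
    have h9 : μ * (C1 * ((y : ℚ) + 1) ^ (s - 2)) + β ^ 2 * (C2 * ((y : ℚ) + 1) ^ (s - 2)) =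
        (μ * C1 + β ^ 2 * C2) * ((y : ℚ) + 1) ^ (s - 2) := by ring
    rw [h9, hC3, mul_assoc]
    exact mul_le_mul_of_nonneg_left (two_pow_bound _ y hy) (by positivity)
  have h10 : C3 * (y : ℚ) ^ (s - 2) ≤ c * (y : ℚ) ^ (s - 1) := by
    have h11 : s - 1 = s - 2 + 1 := by omega
    have h14 : c * (y : ℚ) ^ (s - 2 + 1) = (c * y) * (y : ℚ) ^ (s - 2) := by ring
    rw [h11, h14]
    apply mul_le_mul_of_nonneg_right _ (by positivity)
    have h12 : C3 / c < y := lt_of_lt_of_le hN (by exact_mod_cast hyN)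
    rw [div_lt_iff₀ hc0] at h12
    linarith
  have h13 : μ * (Pq (2 * s + 1) y - W (2 * s + 1) y) +
        β ^ 2 * (taylor (sh s) (D s)).eval (y : ℚ) =
      (β ^ 2 * κ + (-1) ^ y * (μ * v s)) * (y : ℚ) ^ (s - 1) + (μ * e1 + β ^ 2 * e2) := by
    rw [he1, he2, eval_sub, eval_mul, eval_C, eval_pow, eval_X]
    ring
  rw [h13]
  exact lower_aux _ _ _ c C3 _ _ _ (neg_one_pow_eq_or ℚ y) hc1 hc2 (by positivity) h6 h10

lemma two_mul_fact_v {s : ℕ} (hs : 1 ≤ s) :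
    2 * (((2 * s).factorial * (2 * s + 1).factorial : ℚ) * v s) =
      (((2 * s + 1) * s * (2 * s - 1).doubleFactorial ^ 2 : ℕ) : ℚ) := by
  obtain ⟨t, rfl⟩ : ∃ t, s = t + 1 := ⟨s - 1, by omega⟩
  have h1 : ((2 * (t + 1)).factorial : ℚ) = 2 ^ (t + 1) * (t + 1).factorial *
      (2 * (t + 1) - 1).doubleFactorial := by
    have e1 : 2 * (t + 1) = 2 * t + 1 + 1 := by ring
    have h := Nat.factorial_eq_mul_doubleFactorial (2 * t + 1)
    have h' := Nat.doubleFactorial_two_mul (t + 1)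
    rw [e1] at h'
    rw [h'] at h
    rw [e1, Nat.add_sub_cancel, h]
    push_cast
    ring
  have h2 : ((2 * (t + 1) + 1).factorial : ℚ) = (2 * (t + 1) + 1) * (2 * (t + 1)).factorial := by
    rw [Nat.factorial_succ]
    push_cast
    ring
  have h3 : ((t + 1).factorial : ℚ) = (t + 1) * t.factorial := by
    rw [Nat.factorial_succ]
    push_cast
    ring
  have h4 : (t.factorial : ℚ) ≠ 0 := by exact_mod_cast Nat.factorial_ne_zero t
  have h5 : ((t : ℚ) + 1) ≠ 0 := by positivity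
  rw [v, h2, h1, h3, Nat.add_sub_cancel]
  push_cast
  have h6 : (2 : ℚ) ^ (2 * (t + 1) + 1) = 2 * (2 ^ (t + 1) * 2 ^ (t + 1)) := by ring
  rw [h6]
  field_simp

open Pool.Agent.Helper66.PF in
lemma half_not_mem : (1 / 2 : ℚ) ∉ Z2 := fun h => half_not h

open Pool.Agent.Helper66.PF in
lemma ninth_mem : (1 / 9 : ℚ) ∈ Z2 := by
  rw [mem_Z2, padicNorm.div, padicNorm.one]
  have h : padicNorm 2 (9 : ℚ) = 1 := by
    have := (padicNorm.nat_eq_one_iff (p := 2) 9).mpr (by norm_num)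
    exact_mod_cast this
  rw [h]
  norm_num

open Pool.Agent.Helper66.PF in
lemma nonvan {s : ℕ} (hs : 2 ≤ s) (h16 : (2 * s + 1) % 16 ≠ 15) :
    2 * sq (cc s) (s + 1) ≠ ((2 * s).factorial * (2 * s + 1).factorial) * v s ∧
      2 * sq (cc s) (s + 1) ≠ -(((2 * s).factorial * (2 * s + 1).factorial) * v s) := by
  rcases Nat.even_or_odd' s with ⟨j, hj | hj⟩
  · have h0 : sq (cc s) (s + 1) = 0 := sq_odd (cc s) (cc_odd s) _ (by omega)
    have hv := v_pos s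
    have hpos : 0 < ((2 * s).factorial * (2 * s + 1).factorial : ℚ) * v s := by positivity
    rw [h0, mul_zero]
    exact ⟨hpos.ne, by linarith⟩
  · have hnot : 4 * sq (cc s) (s + 1) ∉ Z2 := by
      have hA : ∀ k, (2 : ℚ) ^ k * (((2 * s + 1).factorial : ℚ) *
          PowerSeries.coeff k (Th (2 * s + 1))) ∈ Z2 := fun k => A_int (by omega) k
      have hs' : s + 1 = 2 * (j + 1) := by omega
      rcases Nat.even_or_odd' (j + 1) with ⟨i, hi | hi⟩
      · exact four_q_not_mem Z2 half_not_mem ninth_mem s (j + 1) i 1 hA (by omega) hs'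
          (by omega) (by omega)
      · exact four_q_not_mem Z2 half_not_mem ninth_mem s (j + 1) (j + 1) 2 hA (by omega) hs'
          (by omega) (by omega)
    have h2 := two_mul_fact_v (s := s) (by omega)
    constructor
    · intro h
      apply hnot
      have : 4 * sq (cc s) (s + 1) = 2 * (2 * sq (cc s) (s + 1)) := by ring
      rw [this, h, h2]
      exact natCast_mem _ _
    · intro h
      apply hnot
      have : 4 * sq (cc s) (s + 1) = 2 * (2 * sq (cc s) (s + 1)) := by ring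
      rw [this, h, mul_neg, h2]
      exact Z2.neg_mem (natCast_mem _ _)

/-- for odd `3 ≤ m < n` with `m n` a perfect square and `n ≢ 15 mod 16` the equation
`P_m(x) = P_n(y)` has only finitely many solutions -/
theorem finite_pairs {m n : ℕ} (hm : 3 ≤ m) (hmn : m < n) (hmo : m % 2 = 1) (hno : n % 2 = 1)
    (hsq : ∃ r : ℕ, m * n = r ^ 2) (h16 : n % 16 ≠ 15) :
    {z : ℕ × ℕ | P m z.1 = P n z.2}.Finite := by
  obtain ⟨s', rfl⟩ : ∃ s', m = 2 * s' + 1 := ⟨m / 2, by omega⟩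
  obtain ⟨s, rfl⟩ : ∃ s, n = 2 * s + 1 := ⟨n / 2, by omega⟩
  obtain ⟨r, hr⟩ := hsq
  have hr0 : 0 < r := by
    rcases Nat.eq_zero_or_pos r with h | h
    · rw [h] at hr
      have : 0 < (2 * s' + 1) * (2 * s + 1) := by positivity
      omega
    · exact h
  have hrq : ((2 * s' + 1 : ℕ) : ℚ) * ((2 * s + 1 : ℕ) : ℚ) = (r : ℚ) ^ 2 := by exact_mod_cast hr
  set μ : ℚ := ((2 * s' + 1 : ℕ) : ℚ) with hμ
  have hμ0 : 0 < μ := by rw [hμ]; positivity
  have hf1 : ((2 * s' + 1).factorial : ℚ) = ((2 * s' + 1 : ℕ) : ℚ) * (2 * s').factorial := by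
    rw [Nat.factorial_succ]; push_cast; ring
  have hf2 : ((2 * s + 1).factorial : ℚ) = ((2 * s + 1 : ℕ) : ℚ) * (2 * s).factorial := by
    rw [Nat.factorial_succ]; push_cast; ring
  have hg1 : ((2 * s').factorial : ℚ) ≠ 0 := by exact_mod_cast Nat.factorial_ne_zero _
  have hg2 : ((2 * s).factorial : ℚ) ≠ 0 := by exact_mod_cast Nat.factorial_ne_zero _
  have hn0 : ((2 * s + 1 : ℕ) : ℚ) ≠ 0 := by positivity
  set α : ℚ := 1 / (2 * s').factorial with hα
  set β : ℚ := r / (((2 * s + 1 : ℕ) : ℚ) * (2 * s).factorial) with hβd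
  have hα2 : α ^ 2 * ((2 * s').factorial * (2 * s' + 1).factorial) = μ := by
    rw [hα, hf1, hμ]
    field_simp
  have hβ2 : β ^ 2 * ((2 * s).factorial * (2 * s + 1).factorial) = μ := by
    rw [hβd, hf2, div_pow, ← hrq]
    field_simp
  have hα0 : 0 < α := by rw [hα]; positivity
  have hβ0 : 0 < β := by
    rw [hβd]
    have : (0 : ℚ) < r := by exact_mod_cast hr0
    positivity
  obtain ⟨C1, hC1⟩ := close (s := s') (by omega) hμ0 hα2
  obtain ⟨C2, hC2⟩ := close (s := s) (by omega) hμ0 hβ2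
  obtain ⟨hne, hne'⟩ := nonvan (s := s) (by omega) h16
  obtain ⟨c, hc, hc'⟩ := lower (s := s) (by omega) hμ0 hβ2 hne hne'
  have key := Pool.Agent.Helper66.PF.runge_glue (a := fun x => μ * Pq (2 * s' + 1) x)
    (b := fun y => μ * Pq (2 * s + 1) y) (A := B s' α) (B := B s β) (p := s') (q := s)
    (by omega) (by omega) (natDegree_B s' hα0.ne') (natDegree_B s hβ0.ne')
    (by rw [leadingCoeff_B]; exact hα0) (by rw [leadingCoeff_B]; exact hβ0) hc hC1 hC2 hc'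
  refine key.subset (fun z hz => ?_)
  have hz' : P (2 * s' + 1) z.1 = P (2 * s + 1) z.2 := hz
  show μ * Pq (2 * s' + 1) z.1 = μ * Pq (2 * s + 1) z.2
  rw [Pq, Pq, hz']

end Pool.Agent.Helper30.PF
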