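import Mathlib

/-!
# The forward shift on rational sequences, growth of solutions of linear recurrences
-/

namespace Pool.Agent.Helper30.PF

open Polynomial Finset

/-- the forward shift -/
noncomputable def T : (ℕ → ℚ) →ₗ[ℚ] (ℕ → ℚ) where
  toFun f := fun y => f (y + 1)
  map_add' _ _ := rfl
  map_smul' _ _ := rfl

lemma T_apply (f : ℕ → ℚ) (y : ℕ) : T f y = f (y + 1) := rfl

lemma T_pow_apply (k : ℕ) (f : ℕ → ℚ) (y : ℕ) : (T ^ k) f y = f (y + k) := by
  induction k generalizing f y with
  | zero => simp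
  | succ k ih =>
    rw [pow_succ, Module.End.mul_apply, ih, T_apply]
    congr 1

lemma aeval_mul_apply (p q : ℚ[X]) (f : ℕ → ℚ) :
    aeval T (p * q) f = aeval T p (aeval T q f) := by
  rw [map_mul, Module.End.mul_apply]

lemma aeval_apply (p : ℚ[X]) (f : ℕ → ℚ) (y : ℕ) :
    aeval T p f y = ∑ k ∈ range (p.natDegree + 1), p.coeff k * f (y + k) := by
  rw [aeval_eq_sum_range, LinearMap.sum_apply, Finset.sum_apply]
  refine Finset.sum_congr rfl (fun k _ => ?_)
  rw [LinearMap.smul_apply, Pi.smul_apply, T_pow_apply, smul_eq_mul]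

lemma aeval_X_pow_sub_one (L : ℕ) (f : ℕ → ℚ) (y : ℕ) :
    aeval T ((X : ℚ[X]) ^ L - 1) f y = f (y + L) - f y := by
  rw [map_sub, map_pow, aeval_X, map_one, LinearMap.sub_apply, Pi.sub_apply, T_pow_apply]
  rfl

/-- growth of a sequence killed by a power of `T^L - 1` -/
lemma growth {L : ℕ} (hL : 1 ≤ L) : ∀ (r : ℕ) (f : ℕ → ℚ),
    aeval T (((X : ℚ[X]) ^ L - 1) ^ (r + 1)) f = 0 →
    ∃ C : ℚ, 0 ≤ C ∧ ∀ y : ℕ, |f y| ≤ C * ((y : ℚ) + 1) ^ r := by
  have key : ∀ (r : ℕ) (f : ℕ → ℚ) (D : ℚ), 0 ≤ D →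
      (∀ y : ℕ, |f (y + L) - f y| ≤ D * ((y : ℚ) + 1) ^ r) →
      ∀ y : ℕ, |f y| ≤ (∑ i ∈ range L, |f i|) + y * (D * ((y : ℚ) + 1) ^ r) := by
    intro r f D hD h y
    induction y using Nat.strong_induction_on with
    | _ y ih =>
      by_cases hy : y < L
      · have h1 : |f y| ≤ ∑ i ∈ range L, |f i| :=
          Finset.single_le_sum (f := fun i => |f i|) (fun _ _ => abs_nonneg _)
            (Finset.mem_range.mpr hy)
        have h2 : (0 : ℚ) ≤ y * (D * ((y : ℚ) + 1) ^ r) := by positivity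
        linarith
      · obtain ⟨z, rfl⟩ := Nat.exists_eq_add_of_le' (not_lt.mp hy)
        have h1 := ih z (by omega)
        have h2 := h z
        have h3 : |f (z + L)| ≤ |f z| + |f (z + L) - f z| := by
          have := abs_add_le (f z) (f (z + L) - f z)
          rwa [add_sub_cancel] at this
        have h4 : (((z : ℕ) : ℚ) + 1) ^ r ≤ (((z + L : ℕ) : ℚ) + 1) ^ r := by
          apply pow_le_pow_left₀ (by positivity)
          push_cast
          have : (0 : ℚ) ≤ L := by positivity
          linarith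
        have h5 : (z : ℚ) + 1 ≤ ((z + L : ℕ) : ℚ) := by
          push_cast
          have : (1 : ℚ) ≤ L := by exact_mod_cast hL
          linarith
        have h6 : (0 : ℚ) ≤ D * (((z + L : ℕ) : ℚ) + 1) ^ r := by positivity
        have h7 : D * ((z : ℚ) + 1) ^ r ≤ D * (((z + L : ℕ) : ℚ) + 1) ^ r :=
          mul_le_mul_of_nonneg_left h4 hD
        have h8 : (z : ℚ) * (D * ((z : ℚ) + 1) ^ r) ≤ z * (D * (((z + L : ℕ) : ℚ) + 1) ^ r) :=
          mul_le_mul_of_nonneg_left h7 (by positivity)
        nlinarith [mul_le_mul_of_nonneg_right h5 h6]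
  intro r
  induction r with
  | zero =>
    intro f hf
    refine ⟨∑ i ∈ range L, |f i|, Finset.sum_nonneg (fun _ _ => abs_nonneg _), fun y => ?_⟩
    have := key 0 f 0 le_rfl (fun y => by
      have h1 := congrFun hf y
      rw [zero_add, pow_one, aeval_X_pow_sub_one] at h1
      rw [h1]
      simp) y
    simpa using this
  | succ r ih =>
    intro f hf
    rw [pow_succ, aeval_mul_apply] at hf
    obtain ⟨C, hC, hg⟩ := ih _ hf
    have h1 := key r f C hC (fun y => by
      rw [← aeval_X_pow_sub_one]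
      exact hg y)
    refine ⟨(∑ i ∈ range L, |f i|) + C, add_nonneg
      (Finset.sum_nonneg (fun _ _ => abs_nonneg _)) hC, fun y => (h1 y).trans ?_⟩
    have hS : (0 : ℚ) ≤ ∑ i ∈ range L, |f i| := Finset.sum_nonneg (fun _ _ => abs_nonneg _)
    have h2 : (1 : ℚ) ≤ ((y : ℚ) + 1) ^ (r + 1) := one_le_pow₀ (by
      have : (0 : ℚ) ≤ y := by positivity
      linarith)
    have h3 : (y : ℚ) * (C * ((y : ℚ) + 1) ^ r) ≤ C * ((y : ℚ) + 1) ^ (r + 1) := by
      rw [pow_succ]
      have : (0 : ℚ) ≤ C * ((y : ℚ) + 1) ^ r := by positivity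
      nlinarith
    nlinarith [mul_le_mul_of_nonneg_left h2 hS]

/-- a polynomial of degree at most `k` is `O((y+1)^k)` on the naturals -/
lemma poly_growth (p : ℚ[X]) {k : ℕ} (hp : p.natDegree ≤ k) :
    ∃ C : ℚ, 0 ≤ C ∧ ∀ y : ℕ, |p.eval (y : ℚ)| ≤ C * ((y : ℚ) + 1) ^ k := by
  refine ⟨∑ i ∈ range (p.natDegree + 1), |p.coeff i|,
    Finset.sum_nonneg (fun _ _ => abs_nonneg _), fun y => ?_⟩
  rw [eval_eq_sum_range, Finset.sum_mul]
  refine (Finset.abs_sum_le_sum_abs _ _).trans (Finset.sum_le_sum (fun i hi => ?_))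
  rw [abs_mul]
  apply mul_le_mul_of_nonneg_left _ (abs_nonneg _)
  have hy : (0 : ℚ) ≤ y := by positivity
  rw [abs_of_nonneg (by positivity)]
  calc (y : ℚ) ^ i ≤ ((y : ℚ) + 1) ^ i := pow_le_pow_left₀ hy (by linarith) _
    _ ≤ ((y : ℚ) + 1) ^ k := pow_le_pow_right₀ (by linarith) (by
        have := Finset.mem_range.mp hi
        omega)

/-- a sequence killed by `(T-1)^(s+1)` is a polynomial of degree at most `s`, with top
coefficient `((T-1)^s f)(0)/s!` -/
lemma poly_of_killed : ∀ (s : ℕ) (f : ℕ → ℚ), aeval T (((X : ℚ[X]) - 1) ^ (s + 1)) f = 0 →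
    ∃ p : ℚ[X], p.natDegree ≤ s ∧ p.coeff s = aeval T (((X : ℚ[X]) - 1) ^ s) f 0 / s.factorial ∧
      ∀ y : ℕ, f y = p.eval (y : ℚ) := by
  intro s f hf
  have hfd : ∀ (k : ℕ) (g : ℕ → ℚ), aeval T (((X : ℚ[X]) - 1) ^ k) g = (fwdDiff 1)^[k] g := by
    intro k
    induction k with
    | zero => intro g; simp
    | succ k ih =>
      intro g
      rw [pow_succ, aeval_mul_apply, ih, Function.iterate_succ_apply]
      congr 1
      funext y
      have := aeval_X_pow_sub_one 1 g y
      rw [pow_one] at this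
      rw [this, fwdDiff]
  have hz : ∀ k, s + 1 ≤ k → (fwdDiff 1)^[k] f 0 = 0 := by
    intro k hk
    obtain ⟨j, rfl⟩ := Nat.exists_eq_add_of_le hk
    rw [← hfd, pow_add, mul_comm, aeval_mul_apply, hf, map_zero]
    rfl
  refine ⟨∑ k ∈ range (s + 1), C ((fwdDiff 1)^[k] f 0 / k.factorial) * descPochhammer ℚ k,
    ?_, ?_, ?_⟩
  · refine natDegree_sum_le_of_forall_le _ _ (fun k hk => ?_)
    refine (natDegree_C_mul_le _ _).trans ?_
    rw [descPochhammer_natDegree]
    have := Finset.mem_range.mp hk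
    omega
  · rw [finset_sum_coeff, Finset.sum_eq_single s]
    · rw [coeff_C_mul, hfd]
      have h1 := monic_descPochhammer ℚ s
      have h2 : (descPochhammer ℚ s).coeff s = 1 := by
        have := h1.coeff_natDegree
        rwa [descPochhammer_natDegree] at this
      rw [h2, mul_one]
    · intro k hk hne
      have := Finset.mem_range.mp hk
      rw [coeff_C_mul, coeff_eq_zero_of_natDegree_lt, mul_zero]
      rw [descPochhammer_natDegree]
      omega
    · intro h
      exact absurd (Finset.mem_range.mpr (Nat.lt_succ_self s)) h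
  · intro y
    have h1 := shift_eq_sum_fwdDiff_iter 1 f y 0
    rw [zero_add, smul_eq_mul, mul_one] at h1
    rw [h1, eval_finset_sum]
    have h2 : ∑ k ∈ range (y + 1), y.choose k • (fwdDiff 1)^[k] f 0 =
        ∑ k ∈ range (max y s + 1), y.choose k • (fwdDiff 1)^[k] f 0 := by
      apply Finset.sum_subset
      · intro k hk
        simp only [Finset.mem_range] at hk ⊢
        omega
      · intro k _ hk
        have : y < k := by
          simp only [Finset.mem_range] at hk
          omega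
        rw [Nat.choose_eq_zero_of_lt this, zero_smul]
    have h3 : ∑ k ∈ range (s + 1), y.choose k • (fwdDiff 1)^[k] f 0 =
        ∑ k ∈ range (max y s + 1), y.choose k • (fwdDiff 1)^[k] f 0 := by
      apply Finset.sum_subset
      · intro k hk
        simp only [Finset.mem_range] at hk ⊢
        omega
      · intro k _ hk
        have : s + 1 ≤ k := by
          simp only [Finset.mem_range] at hk
          omega
        rw [hz k this, smul_zero]
    rw [h2, ← h3]
    refine Finset.sum_congr rfl (fun k _ => ?_)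
    rw [eval_mul, eval_C, descPochhammer_eval_eq_descFactorial, nsmul_eq_mul,
      Nat.choose_eq_descFactorial_div_factorial,
      Nat.cast_div (Nat.factorial_dvd_descFactorial y k)
        (by exact_mod_cast Nat.factorial_ne_zero k)]
    ring

end Pool.Agent.Helper30.PF
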