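import Pool.Agent.Helper30.PF.Def
import Pool.Agent.Helper30.PF.Shift

/-!
# Shift polynomials applied to sequences of coefficients; the factorisation of
`∏_{i ≤ n} (1 + X + … + X^(i-1))`
-/

namespace Pool.Agent.Helper30.PF

open Polynomial Finset

/-- the sequence of the coefficients of `F` from index `c` on -/
noncomputable def seq (c : ℕ) (F : PowerSeries ℚ) : ℕ → ℚ := fun y => PowerSeries.coeff (y + c) F

/-- applying `p(T)` to coefficient sequences is multiplication by `q` and a shift by `d` -/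
def Rev (p : ℚ[X]) (q : PowerSeries ℚ) (d : ℕ) : Prop :=
  ∀ (c : ℕ) (F : PowerSeries ℚ), aeval T p (seq c F) = seq (c + d) (q * F)

lemma Rev.mul {p p' : ℚ[X]} {q q' : PowerSeries ℚ} {d d' : ℕ} (h : Rev p q d)
    (h' : Rev p' q' d') : Rev (p * p') (q * q') (d + d') := by
  intro c F
  rw [aeval_mul_apply, h', h, mul_assoc]
  congr 1
  ring

lemma Rev.one : Rev 1 1 0 := by
  intro c F
  simp

lemma Rev.prod {ι : Type*} (s : Finset ι) (p : ι → ℚ[X]) (q : ι → PowerSeries ℚ) (d : ι → ℕ)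
    (h : ∀ i ∈ s, Rev (p i) (q i) (d i)) :
    Rev (∏ i ∈ s, p i) (∏ i ∈ s, q i) (∑ i ∈ s, d i) := by
  classical
  induction s using Finset.induction_on with
  | empty => simpa using Rev.one
  | insert a s ha ih =>
    rw [Finset.prod_insert ha, Finset.prod_insert ha, Finset.sum_insert ha]
    exact (h a (Finset.mem_insert_self _ _)).mul
      (ih (fun i hi => h i (Finset.mem_insert_of_mem hi)))

lemma Rev.pow {p : ℚ[X]} {q : PowerSeries ℚ} {d : ℕ} (h : Rev p q d) (k : ℕ) :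
    Rev (p ^ k) (q ^ k) (k * d) := by
  have := Rev.prod (range k) (fun _ => p) (fun _ => q) (fun _ => d) (fun _ _ => h)
  simpa using this

/-- `1 + X^g + … + X^(g(h-1))` -/
noncomputable def E (g h : ℕ) : ℚ[X] := ∑ l ∈ range h, X ^ (g * l)

lemma aeval_E (g h : ℕ) (f : ℕ → ℚ) (y : ℕ) :
    aeval T (E g h) f y = ∑ l ∈ range h, f (y + g * l) := by
  rw [E, map_sum, LinearMap.sum_apply, Finset.sum_apply]
  refine Finset.sum_congr rfl (fun l _ => ?_)
  rw [map_pow, aeval_X, T_pow_apply]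

lemma coe_E (g h : ℕ) : ((E g h : ℚ[X]) : PowerSeries ℚ) =
    ∑ l ∈ range h, (PowerSeries.X : PowerSeries ℚ) ^ (g * l) := by
  rw [E, ← Polynomial.coeToPowerSeries.ringHom_apply, map_sum]
  simp

lemma rev_E (g h : ℕ) (hh : 1 ≤ h) : Rev (E g h) (E g h : ℚ[X]) (g * (h - 1)) := by
  intro c F
  funext y
  rw [aeval_E]
  simp only [seq]
  rw [coe_E, Finset.sum_mul, map_sum, ← Finset.sum_range_reflect]
  refine Finset.sum_congr rfl (fun l hl => ?_)
  have hl' := Finset.mem_range.mp hl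
  rw [PowerSeries.coeff_X_pow_mul']
  have h1 : g * l ≤ g * (h - 1) := Nat.mul_le_mul_left g (by omega)
  rw [if_pos (by omega)]
  have h2 : g * (h - 1 - l) + g * l = g * (h - 1) := by
    rw [← Nat.mul_add]
    congr 1
    omega
  have h3 : y + g * (h - 1 - l) + c = y + (c + g * (h - 1)) - g * l := by omega
  rw [h3]

lemma rev_X_sub_one : Rev (X - 1) (1 - PowerSeries.X) 1 := by
  intro c F
  funext y
  have h := aeval_X_pow_sub_one 1 (seq c F) y
  rw [pow_one] at h
  rw [h]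
  simp only [seq]
  rw [sub_mul, one_mul, map_sub]
  have h2 : y + (c + 1) = (y + c) + 1 := by ring
  rw [h2, PowerSeries.coeff_succ_X_mul]
  have h3 : y + 1 + c = y + c + 1 := by ring
  rw [h3]

lemma rev_X_add_one : Rev (X + 1) (1 + PowerSeries.X) 1 := by
  intro c F
  funext y
  rw [map_add, aeval_X, map_one, LinearMap.add_apply, Pi.add_apply, T_apply,
    Module.End.one_apply]
  simp only [seq]
  rw [add_mul, one_mul, map_add]
  have h2 : y + (c + 1) = (y + c) + 1 := by ring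
  rw [h2, PowerSeries.coeff_succ_X_mul]
  have h3 : y + 1 + c = y + c + 1 := by ring
  rw [h3]

/-- `Λ n = ∏_{i=1}^n (1 + X + … + X^(i-1))` -/
noncomputable def Lam (n : ℕ) : ℚ[X] := ∏ i ∈ range n, E 1 (i + 1)

/-- the cofactor of `(1+X)^s` in `Λ (2s+1)` -/
noncomputable def M (s : ℕ) : ℚ[X] :=
  (∏ h ∈ range (s + 1), E 1 (2 * h + 1)) * ∏ h ∈ range s, E 2 (h + 1)

lemma E_one_double (h : ℕ) : E 1 (2 * h) = (X + 1) * E 2 h := by
  induction h with
  | zero => simp [E]
  | succ h ih =>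
    have h1 : 2 * (h + 1) = 2 * h + 1 + 1 := by ring
    rw [h1, E, Finset.sum_range_succ, Finset.sum_range_succ]
    rw [E] at ih
    rw [ih, E, E, Finset.sum_range_succ]
    ring

lemma Lam_eq (s : ℕ) : Lam (2 * s + 1) = (X + 1) ^ s * M s := by
  induction s with
  | zero => simp [Lam, M]
  | succ s ih =>
    have h1 : 2 * (s + 1) + 1 = 2 * s + 1 + 1 + 1 := by ring
    rw [h1, Lam, Finset.prod_range_succ, Finset.prod_range_succ]
    rw [Lam] at ih
    rw [ih]
    have h2 : 2 * s + 1 + 1 = 2 * (s + 1) := by ring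
    rw [h2, E_one_double]
    unfold M
    rw [Finset.prod_range_succ (fun h => E 1 (2 * h + 1)) (s + 1),
      Finset.prod_range_succ (fun h => E 2 (h + 1)) s]
    ring

lemma eval_E_neg_one_odd (h : ℕ) : (E 1 (2 * h + 1)).eval (-1) = 1 := by
  rw [E, Finset.sum_range_succ, ← E, E_one_double]
  simp

lemma eval_E_two_neg_one (h : ℕ) : (E 2 h).eval (-1) = h := by
  rw [E, eval_finsetSum]
  simp [pow_mul]

lemma eval_M (s : ℕ) : (M s).eval (-1) = s.factorial := by
  rw [M, eval_mul, eval_prod, eval_prod]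
  simp only [eval_E_neg_one_odd, eval_E_two_neg_one, Finset.prod_const_one, one_mul]
  rw [← Finset.prod_range_add_one_eq_factorial]
  push_cast
  rfl

lemma coprime_M (s : ℕ) : IsCoprime ((X + 1 : ℚ[X]) ^ s) (M s) := by
  apply IsCoprime.pow_left
  have h1 : (X + 1 : ℚ[X]) = X - C (-1) := by simp
  rw [h1]
  refine ((irreducible_X_sub_C (-1 : ℚ)).coprime_iff_not_dvd).mpr ?_
  rw [dvd_iff_isRoot, IsRoot, eval_M]
  exact_mod_cast Nat.factorial_ne_zero s

/-- the cofactor again, as a product of cyclotomic polynomials -/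
noncomputable def N (n : ℕ) : ℚ[X] :=
  ∏ i ∈ range n, ∏ d ∈ (i + 1).divisors.filter (3 ≤ ·), cyclotomic d ℚ

lemma E_one_cyclotomic (i : ℕ) : E 1 (i + 1) =
    (if 2 ∣ i + 1 then (X + 1) else 1) *
      ∏ d ∈ (i + 1).divisors.filter (3 ≤ ·), cyclotomic d ℚ := by
  have h1 : E 1 (i + 1) = ∏ d ∈ (i + 1).divisors.erase 1, cyclotomic d ℚ := by
    rw [prod_cyclotomic_eq_geom_sum (Nat.succ_pos i), E]
    simp
  rw [h1]
  by_cases h : 2 ∣ i + 1
  · rw [if_pos h]
    have h2 : (i + 1).divisors.erase 1 = insert 2 ((i + 1).divisors.filter (3 ≤ ·)) := by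
      ext d
      simp only [Finset.mem_erase, Nat.mem_divisors, Finset.mem_insert, Finset.mem_filter]
      constructor
      · rintro ⟨h3, h4, h5⟩
        by_cases hd : d = 2
        · exact Or.inl hd
        · right
          have : d ≠ 0 := by
            rintro rfl
            exact h5 (Nat.eq_zero_of_zero_dvd h4)
          exact ⟨⟨h4, h5⟩, by omega⟩
      · rintro (rfl | ⟨⟨h3, h4⟩, h5⟩)
        · exact ⟨by norm_num, h, by omega⟩
        · exact ⟨by omega, h3, h4⟩
    rw [h2, Finset.prod_insert (by simp), cyclotomic_two]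
  · rw [if_neg h, one_mul]
    have h2 : (i + 1).divisors.erase 1 = ((i + 1).divisors.filter (3 ≤ ·)) := by
      ext d
      simp only [Finset.mem_erase, Nat.mem_divisors, Finset.mem_filter]
      constructor
      · rintro ⟨h3, h4, h5⟩
        have h6 : d ≠ 0 := by
          rintro rfl
          exact h5 (Nat.eq_zero_of_zero_dvd h4)
        have h7 : d ≠ 2 := by
          rintro rfl
          exact h h4
        exact ⟨⟨h4, h5⟩, by omega⟩
      · rintro ⟨⟨h3, h4⟩, h5⟩
        exact ⟨by omega, h3, h4⟩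
    rw [h2]

lemma Lam_eq_N (n : ℕ) : Lam n = (X + 1) ^ (n / 2) * N n := by
  rw [Lam, N]
  simp_rw [E_one_cyclotomic]
  rw [Finset.prod_mul_distrib, Finset.prod_ite, Finset.prod_const_one, mul_one,
    Finset.prod_const]
  congr 2
  exact Nat.card_multiples n 2

lemma M_eq_N (s : ℕ) : M s = N (2 * s + 1) := by
  have h := (Lam_eq s).symm.trans (Lam_eq_N (2 * s + 1))
  have h2 : (2 * s + 1) / 2 = s := by omega
  rw [h2] at h
  have h3 : (X + 1 : ℚ[X]) ^ s ≠ 0 := pow_ne_zero _ (by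
    have : (X + 1 : ℚ[X]) = X + C 1 := by simp
    rw [this]
    exact X_add_C_ne_zero 1)
  exact mul_left_cancel₀ h3 h

lemma N_dvd (n : ℕ) : N n ∣ ((X : ℚ[X]) ^ n.factorial - 1) ^ (n / 3) := by
  have h1 : N n = ∏ d ∈ Icc 3 n, cyclotomic d ℚ ^ (n / d) := by
    rw [N]
    rw [Finset.prod_comm' (t' := Icc 3 n) (s' := fun d => (range n).filter (fun i => d ∣ i + 1))]
    · refine Finset.prod_congr rfl (fun d _ => ?_)
      rw [Finset.prod_const, Nat.card_multiples]
    · intro i d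
      simp only [Finset.mem_range, Finset.mem_filter, Nat.mem_divisors, Finset.mem_Icc]
      constructor
      · rintro ⟨h1, ⟨h2, h3⟩, h4⟩
        exact ⟨⟨h1, h2⟩, h4, (Nat.le_of_dvd (Nat.succ_pos i) h2).trans h1⟩
      · rintro ⟨⟨h1, h2⟩, h3, h4⟩
        exact ⟨h1, ⟨h2, by omega⟩, h3⟩
  rw [h1]
  have h2 : ∏ d ∈ Icc 3 n, cyclotomic d ℚ ^ (n / d) ∣ ∏ d ∈ Icc 3 n, cyclotomic d ℚ ^ (n / 3) :=
    Finset.prod_dvd_prod_of_dvd _ _ (fun d hd => pow_dvd_pow _
      (Nat.div_le_div_left (Finset.mem_Icc.mp hd).1 (by norm_num)))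
  refine h2.trans ?_
  rw [Finset.prod_pow]
  apply pow_dvd_pow_of_dvd
  rw [← prod_cyclotomic_eq_X_pow_sub_one (Nat.factorial_pos n)]
  apply Finset.prod_dvd_prod_of_subset
  intro d hd
  have := Finset.mem_Icc.mp hd
  exact Nat.mem_divisors.mpr ⟨Nat.dvd_factorial (by omega) this.2, Nat.factorial_ne_zero n⟩

/-- growth of the sequences killed by the cofactor -/
lemma growth_M {s : ℕ} (hs : 1 ≤ s) (f : ℕ → ℚ) (hf : aeval T (M s) f = 0) :
    ∃ C : ℚ, 0 ≤ C ∧ ∀ y : ℕ, |f y| ≤ C * ((y : ℚ) + 1) ^ ((2 * s + 1) / 3 - 1) := by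
  obtain ⟨g, hg⟩ := N_dvd (2 * s + 1)
  rw [← M_eq_N] at hg
  apply growth (Nat.factorial_pos (2 * s + 1))
  have h1 : (2 * s + 1) / 3 - 1 + 1 = (2 * s + 1) / 3 := by omega
  rw [h1, hg, mul_comm, aeval_mul_apply, hf, map_zero]

end Pool.Agent.Helper30.PF
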