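import Pool.Agent.Helper30.PF.Asym2

/-!
# The polynomial square root of the leading part of `W n`
-/

namespace Pool.Agent.Helper30.PF

open Polynomial Finset

/-- formal square root of the series with coefficients `c`, `c 0 = 1` -/
noncomputable def sq (c : ℕ → ℚ) : ℕ → ℚ
  | 0 => 1
  | (k + 1) => (c (k + 1) - ∑ l : Fin k, sq c (l + 1) * sq c (k - l)) / 2
termination_by k => k
decreasing_by
  · have := l.2
    omega
  · omega

lemma sq_zero (c : ℕ → ℚ) : sq c 0 = 1 := by
  rw [sq]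

lemma sq_succ (c : ℕ → ℚ) (k : ℕ) : sq c (k + 1) =
    (c (k + 1) - ∑ l ∈ range k, sq c (l + 1) * sq c (k - l)) / 2 := by
  rw [sq, Fin.sum_univ_eq_sum_range (fun l => sq c (l + 1) * sq c (k - l)) k]

lemma sq_conv (c : ℕ → ℚ) (h0 : c 0 = 1) (k : ℕ) :
    ∑ l ∈ range (k + 1), sq c l * sq c (k - l) = c k := by
  rcases k with _ | k
  · simp [sq_zero, h0]
  · rw [Finset.sum_range_succ, Finset.sum_range_succ']
    have h1 : ∑ l ∈ range k, sq c (l + 1) * sq c (k + 1 - (l + 1)) =
        ∑ l ∈ range k, sq c (l + 1) * sq c (k - l) := by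
      refine Finset.sum_congr rfl (fun l _ => ?_)
      rw [Nat.add_sub_add_right]
    rw [h1, Nat.sub_self, Nat.sub_zero, sq_zero, sq_succ]
    ring

lemma sq_odd (c : ℕ → ℚ) (h : ∀ k, k % 2 = 1 → c k = 0) : ∀ k, k % 2 = 1 → sq c k = 0 := by
  intro k
  induction k using Nat.strong_induction_on with
  | _ k ih =>
    intro hk
    obtain ⟨m, rfl⟩ : ∃ m, k = m + 1 := ⟨k - 1, by omega⟩
    rw [sq_succ, h _ hk]
    have : ∑ l ∈ range m, sq c (l + 1) * sq c (m - l) = 0 := by
      refine Finset.sum_eq_zero (fun l hl => ?_)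
      have hl' := Finset.mem_range.mp hl
      by_cases hl2 : (l + 1) % 2 = 1
      · rw [ih (l + 1) (by omega) hl2, zero_mul]
      · rw [ih (m - l) (by omega) (by omega), mul_zero]
    rw [this]
    simp

/-- the coefficients of the monic form of `W (2s+1)` -/
noncomputable def cc (s j : ℕ) : ℚ := ((2 * s).descFactorial j : ℚ) *
  (((2 * s + 1).factorial : ℚ) * PowerSeries.coeff j (Th (2 * s + 1)))

lemma coeff_zero_Th (n : ℕ) : (n.factorial : ℚ) * PowerSeries.coeff 0 (Th n) = 1 := by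
  have h := congrArg PowerSeries.constantCoeff (Th_mul n)
  rw [map_mul, constantCoeff_Pi', map_one] at h
  rw [PowerSeries.coeff_zero_eq_constantCoeff_apply, mul_comm]
  exact h

lemma cc_zero (s : ℕ) : cc s 0 = 1 := by
  rw [cc, coeff_zero_Th]
  simp

/-- reversed polynomials -/
noncomputable def F' (s : ℕ) : ℚ[X] := ∑ j ∈ range (2 * s + 1), C (cc s j) * X ^ j

/-- reversed truncated square root -/
noncomputable def G' (s : ℕ) : ℚ[X] := ∑ j ∈ range (s + 1), C (sq (cc s) j) * X ^ j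

lemma coeff_trunc (c : ℕ → ℚ) (m i : ℕ) :
    (∑ j ∈ range m, C (c j) * X ^ j : ℚ[X]).coeff i = if i < m then c i else 0 := by
  rw [finsetSum_coeff]
  simp only [coeff_C_mul, coeff_X_pow, mul_ite, mul_one, mul_zero]
  rw [Finset.sum_ite_eq]
  simp only [Finset.mem_range]

lemma natDegree_trunc (c : ℕ → ℚ) (m : ℕ) :
    (∑ j ∈ range (m + 1), C (c j) * X ^ j : ℚ[X]).natDegree ≤ m := by
  rw [natDegree_le_iff_coeff_eq_zero]
  intro i hi
  rw [coeff_trunc, if_neg (by omega)]

/-- the monic form of `W (2s+1)` -/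
noncomputable def F (s : ℕ) : ℚ[X] := reflect (2 * s) (F' s)

/-- the polynomial square root -/
noncomputable def G (s : ℕ) : ℚ[X] := reflect s (G' s)

lemma coeff_F (s i : ℕ) (hi : i ≤ 2 * s) : (F s).coeff i = cc s (2 * s - i) := by
  rw [F, coeff_reflect, revAt_le hi, F', coeff_trunc, if_pos (by omega)]

lemma coeff_F_of_lt (s i : ℕ) (hi : 2 * s < i) : (F s).coeff i = 0 := by
  rw [F, coeff_reflect, revAt_eq_self_of_lt hi, F', coeff_trunc, if_neg (by omega)]

lemma coeff_G (s i : ℕ) (hi : i ≤ s) : (G s).coeff i = sq (cc s) (s - i) := by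
  rw [G, coeff_reflect, revAt_le hi, G', coeff_trunc, if_pos (by omega)]

lemma coeff_G_of_lt (s i : ℕ) (hi : s < i) : (G s).coeff i = 0 := by
  rw [G, coeff_reflect, revAt_eq_self_of_lt hi, G', coeff_trunc, if_neg (by omega)]

lemma natDegree_G (s : ℕ) : (G s).natDegree = s := by
  apply le_antisymm
  · rw [natDegree_le_iff_coeff_eq_zero]
    intro i hi
    exact coeff_G_of_lt s i hi
  · apply le_natDegree_of_ne_zero
    rw [coeff_G s s le_rfl, Nat.sub_self, sq_zero]
    exact one_ne_zero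

lemma leadingCoeff_G (s : ℕ) : (G s).leadingCoeff = 1 := by
  rw [leadingCoeff, natDegree_G, coeff_G s s le_rfl, Nat.sub_self, sq_zero]

lemma coeff_G'_sq (s k : ℕ) (hk : k ≤ s) : (G' s * G' s).coeff k = cc s k := by
  rw [coeff_mul, Finset.Nat.sum_antidiagonal_eq_sum_range_succ_mk, ← sq_conv (cc s) (cc_zero s) k]
  refine Finset.sum_congr rfl (fun l hl => ?_)
  have hl' := Finset.mem_range.mp hl
  rw [G', coeff_trunc, coeff_trunc, if_pos (by omega), if_pos (by omega)]

lemma coeff_G'_sq_succ (s : ℕ) :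
    (G' s * G' s).coeff (s + 1) = cc s (s + 1) - 2 * sq (cc s) (s + 1) := by
  rw [coeff_mul, Finset.Nat.sum_antidiagonal_eq_sum_range_succ_mk,
    ← sq_conv (cc s) (cc_zero s) (s + 1)]
  rw [Finset.sum_range_succ, Finset.sum_range_succ', Finset.sum_range_succ, Finset.sum_range_succ']
  have h1 : (G' s).coeff (s + 1) = 0 := by
    rw [G', coeff_trunc, if_neg (by omega)]
  rw [Nat.sub_self, Nat.sub_zero, h1, sq_zero]
  have h2 : ∑ l ∈ range s, (G' s).coeff (l + 1) * (G' s).coeff (s + 1 - (l + 1)) =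
      ∑ l ∈ range s, sq (cc s) (l + 1) * sq (cc s) (s + 1 - (l + 1)) := by
    refine Finset.sum_congr rfl (fun l hl => ?_)
    have hl' := Finset.mem_range.mp hl
    rw [G', coeff_trunc, coeff_trunc, if_pos (by omega), if_pos (by omega)]
  rw [h2]
  ring

lemma natDegree_G' (s : ℕ) : (G' s).natDegree ≤ s := natDegree_trunc _ _

lemma G_sq (s : ℕ) : G s * G s = reflect (s + s) (G' s * G' s) := by
  rw [G, reflect_mul _ _ (natDegree_G' s) (natDegree_G' s)]

lemma coeff_G_sq (s i : ℕ) (hi : i ≤ 2 * s) :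
    (G s * G s).coeff i = (G' s * G' s).coeff (2 * s - i) := by
  rw [G_sq, coeff_reflect, revAt_le (by omega), ← two_mul]

/-- the remainder -/
noncomputable def D (s : ℕ) : ℚ[X] := F s - G s * G s

lemma natDegree_D {s : ℕ} (hs : 1 ≤ s) : (D s).natDegree ≤ s - 1 := by
  rw [natDegree_le_iff_coeff_eq_zero]
  intro i hi
  rw [D, coeff_sub]
  by_cases h : i ≤ 2 * s
  · rw [coeff_F s i h, coeff_G_sq s i h, coeff_G'_sq s _ (by omega), sub_self]
  · rw [coeff_F_of_lt s i (by omega), zero_sub, neg_eq_zero]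
    apply coeff_eq_zero_of_natDegree_lt
    calc (G s * G s).natDegree ≤ (G s).natDegree + (G s).natDegree := natDegree_mul_le
      _ = s + s := by rw [natDegree_G]
      _ < i := by omega

lemma coeff_D {s : ℕ} (hs : 1 ≤ s) : (D s).coeff (s - 1) = 2 * sq (cc s) (s + 1) := by
  rw [D, coeff_sub, coeff_F s _ (by omega), coeff_G_sq s _ (by omega)]
  have : 2 * s - (s - 1) = s + 1 := by omega
  rw [this, coeff_G'_sq_succ]
  ring

lemma W_eq (s y : ℕ) : ((2 * s).factorial * (2 * s + 1).factorial : ℚ) * W (2 * s + 1) y =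
    (F s).eval ((y : ℚ) + ((2 * s + 1 : ℕ) : ℚ) * (((2 * s + 1 : ℕ) : ℚ) + 1) / 4) := by
  set z : ℚ := (y : ℚ) + ((2 * s + 1 : ℕ) : ℚ) * (((2 * s + 1 : ℕ) : ℚ) + 1) / 4 with hz
  rw [W, phi, ← mul_assoc, ← ex_add, ← hz, Nat.add_sub_cancel, PowerSeries.coeff_mul,
    Finset.Nat.sum_antidiagonal_eq_sum_range_succ_mk, Finset.mul_sum]
  have hdeg : (F s).natDegree < 2 * s + 1 := by
    have : (F s).natDegree ≤ 2 * s := by
      rw [natDegree_le_iff_coeff_eq_zero]
      intro i hi
      exact coeff_F_of_lt s i hi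
    omega
  rw [eval_eq_sum_range' hdeg]
  refine Finset.sum_congr rfl (fun i hi => ?_)
  have hi' : i ≤ 2 * s := by
    have := Finset.mem_range.mp hi
    omega
  rw [coeff_F s i hi', cc, coeff_ex]
  have h1 : (i.factorial : ℚ) * ((2 * s).descFactorial (2 * s - i) : ℚ) =
      (2 * s).factorial := by
    have := Nat.factorial_mul_descFactorial (n := 2 * s) (k := 2 * s - i) (by omega)
    have h2 : 2 * s - (2 * s - i) = i := by omega
    rw [h2] at this
    exact_mod_cast this
  have h3 : (i.factorial : ℚ) ≠ 0 := by exact_mod_cast Nat.factorial_ne_zero i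
  rw [← h1]
  field_simp

end Pool.Agent.Helper30.PF
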