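import Pool.Agent.Helper30.PF.Rev

/-!
# The polynomial part of the restricted partition function
-/

namespace Pool.Agent.Helper30.PF

open Finset PowerSeries

/-- `e^{aX}` -/
noncomputable def ex (a : ℚ) : ℚ⟦X⟧ := rescale a (exp ℚ)

lemma ex_add (a b : ℚ) : ex (a + b) = ex a * ex b := (exp_mul_exp_eq_exp_add a b).symm

lemma ex_zero : ex 0 = 1 := by
  ext n
  simp only [ex, coeff_rescale, coeff_exp, coeff_one]
  rcases n with _ | n
  · simp
  · simp

lemma ex_sum {ι : Type*} (s : Finset ι) (f : ι → ℚ) : ex (∑ i ∈ s, f i) = ∏ i ∈ s, ex (f i) := by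
  classical
  induction s using Finset.induction_on with
  | empty => simp [ex_zero]
  | insert a s ha ih => rw [Finset.sum_insert ha, Finset.prod_insert ha, ex_add, ih]

lemma ex_pow (a : ℚ) (k : ℕ) : ex a ^ k = ex (k * a) := by
  have := ex_sum (range k) (fun _ => a)
  simp only [Finset.sum_const, Finset.card_range, Finset.prod_const, nsmul_eq_mul] at this
  exact this.symm

lemma coeff_ex (a : ℚ) (k : ℕ) : coeff k (ex a) = a ^ k / k.factorial := by
  simp only [ex, coeff_rescale, coeff_exp]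
  simp [div_eq_mul_inv]

lemma constantCoeff_ex (a : ℚ) : constantCoeff (ex a) = 1 := by
  rw [← coeff_zero_eq_constantCoeff_apply, coeff_ex]
  simp

lemma derivative_ex (a : ℚ) : d⁄dX ℚ (ex a) = C a * ex a := by
  ext k
  rw [coeff_derivative, coeff_ex, coeff_C_mul, coeff_ex, Nat.factorial_succ]
  have : (k.factorial : ℚ) ≠ 0 := by exact_mod_cast Nat.factorial_ne_zero k
  have h2 : (k : ℚ) + 1 ≠ 0 := by positivity
  push_cast
  field_simp
  ring

/-- `(e^X - 1)/X` -/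
noncomputable def eps : ℚ⟦X⟧ := PowerSeries.mk (fun k => 1 / ((k + 1).factorial : ℚ))

lemma X_mul_eps : (X : ℚ⟦X⟧) * eps = ex 1 - 1 := by
  ext k
  rcases k with _ | k
  · simp [coeff_ex, ex]
  · rw [coeff_succ_X_mul, eps, coeff_mk, map_sub, coeff_ex, coeff_one]
    simp

lemma constantCoeff_eps : constantCoeff eps = 1 := by
  rw [← coeff_zero_eq_constantCoeff_apply, eps, coeff_mk]
  simp

/-- `X/(e^X - 1)` -/
noncomputable def tau : ℚ⟦X⟧ := eps⁻¹

lemma tau_mul_eps : tau * eps = 1 := by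
  rw [tau, PowerSeries.inv_mul_cancel]
  rw [constantCoeff_eps]
  exact one_ne_zero

lemma constantCoeff_tau : constantCoeff tau = 1 := by
  have := congrArg constantCoeff tau_mul_eps
  rw [map_mul, constantCoeff_eps, mul_one, map_one] at this
  exact this

lemma X_mul_derivative_tau : (X : ℚ⟦X⟧) * d⁄dX ℚ tau = tau - tau ^ 2 - X * tau := by
  have h1 : d⁄dX ℚ tau = -tau ^ 2 * d⁄dX ℚ eps := by
    rw [tau, derivative_inv']
  have h2 : d⁄dX ℚ ((X : ℚ⟦X⟧) * eps) = d⁄dX ℚ (ex 1 - 1) := by rw [X_mul_eps]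
  rw [Derivation.leibniz, derivative_X, map_sub, derivative_ex, derivative_one] at h2
  have h2' : (X : ℚ⟦X⟧) * d⁄dX ℚ eps + eps = ex 1 := by
    simpa [smul_eq_mul] using h2
  have h3 : ex 1 = X * eps + 1 := by rw [X_mul_eps]; ring
  rw [h3] at h2'
  have h4 : (X : ℚ⟦X⟧) * d⁄dX ℚ eps = X * eps + 1 - eps := by
    rw [← h2']; ring
  calc (X : ℚ⟦X⟧) * d⁄dX ℚ tau = -tau ^ 2 * (X * d⁄dX ℚ eps) := by rw [h1]; ring
    _ = -tau ^ 2 * (X * eps + 1 - eps) := by rw [h4]
    _ = -(tau * (tau * eps) * X) - tau ^ 2 + tau * (tau * eps) := by ring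
    _ = tau - tau ^ 2 - X * tau := by rw [tau_mul_eps]; ring

/-- residue recursion -/
lemma res_rec (n : ℕ) (hn : 1 ≤ n) (y : ℚ) :
    (n : ℚ) * coeff n (ex y * tau ^ (n + 1)) = (y - n) * coeff (n - 1) (ex y * tau ^ n) := by
  set h : ℚ⟦X⟧ := ex y * tau ^ n with hh
  obtain ⟨k, rfl⟩ : ∃ k, n = k + 1 := ⟨n - 1, by omega⟩
  have h1 : (X : ℚ⟦X⟧) * d⁄dX ℚ h = C (y - (k + 1 : ℕ)) * (X * h) + C ((k + 1 : ℕ) : ℚ) * h -
      C ((k + 1 : ℕ) : ℚ) * (ex y * tau ^ (k + 1 + 1)) := by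
    rw [hh, Derivation.leibniz, derivative_ex, Derivation.leibniz_pow]
    simp only [smul_eq_mul, nsmul_eq_mul, Nat.add_sub_cancel, map_sub]
    have h2 := X_mul_derivative_tau
    have h3 : ((k + 1 : ℕ) : ℚ⟦X⟧) = C ((k + 1 : ℕ) : ℚ) := by
      simp
    rw [h3]
    linear_combination (ex y * C ((k + 1 : ℕ) : ℚ) * tau ^ k) * h2
  have h2 := congrArg (coeff (k + 1)) h1
  rw [coeff_succ_X_mul, coeff_derivative, map_sub, map_add, coeff_C_mul, coeff_succ_X_mul,
    coeff_C_mul, coeff_C_mul] at h2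
  rw [Nat.add_sub_cancel]
  push_cast at h2 ⊢
  linarith

/-- the residue identity -/
lemma res_eq (n : ℕ) : ∀ m : ℕ, n ≤ m →
    coeff n (ex ((m : ℚ) + 1) * tau ^ (n + 1)) = (m.choose n : ℚ) := by
  induction n with
  | zero =>
    intro m _
    rw [coeff_zero_eq_constantCoeff_apply, map_mul, map_pow, constantCoeff_ex,
      constantCoeff_tau]
    simp
  | succ n ih =>
    intro m hm
    have h1 := res_rec (n + 1) (by omega) ((m : ℚ) + 1)
    rw [Nat.add_sub_cancel, ih m (by omega)] at h1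
    have h2 : ((m.choose (n + 1) : ℕ) : ℚ) * (n + 1) = (m.choose n : ℕ) * ((m : ℚ) - n) := by
      have := Nat.choose_succ_right_eq m n
      have h3 : ((m - n : ℕ) : ℚ) = (m : ℚ) - n := by
        rw [Nat.cast_sub (by omega)]
      rw [← h3]
      exact_mod_cast this
    have h3 : ((n : ℚ) + 1) ≠ 0 := by positivity
    push_cast at h1 ⊢
    apply mul_left_cancel₀ h3
    rw [h1]
    linarith

/-- sequences `y ↦ [X^m] e^{(y+a)X} F` -/
noncomputable def phi (m : ℕ) (F : ℚ⟦X⟧) : ℕ → ℚ := fun y => coeff m (ex y * F)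

lemma aeval_phi (m : ℕ) (p : Polynomial ℚ) (F : ℚ⟦X⟧) :
    Polynomial.aeval T p (phi m F) = phi m (Polynomial.aeval (ex 1) p * F) := by
  induction p using Polynomial.induction_on' generalizing F with
  | add p q hp hq =>
    rw [map_add, LinearMap.add_apply, hp, hq]
    funext y
    simp only [phi, Pi.add_apply, map_add, add_mul, mul_add]
  | monomial k a =>
    funext y
    rw [← Polynomial.C_mul_X_pow_eq_monomial, map_mul, Polynomial.aeval_C, map_pow,
      Polynomial.aeval_X, Module.End.mul_apply, map_mul, Polynomial.aeval_C, map_pow,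
      Polynomial.aeval_X, Module.algebraMap_end_apply, Pi.smul_apply, T_pow_apply, phi, phi,
      ex_pow, mul_one, smul_eq_mul]
    push_cast
    rw [ex_add]
    have h1 : ex y * ((algebraMap ℚ ℚ⟦X⟧) a * ex k * F) = C a * (ex y * ex k * F) := by
      rw [PowerSeries.algebraMap_apply, Algebra.algebraMap_self, RingHom.id_apply]
      ring
    rw [h1, coeff_C_mul]

/-- `(e^{iX/2} - e^{-iX/2})/X` -/
noncomputable def sg (i : ℕ) : ℚ⟦X⟧ := ex (-(i : ℚ) / 2) * (Polynomial.aeval (ex 1) (E 1 i)) * eps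

lemma aeval_E_mul_eps (i : ℕ) : (Polynomial.aeval (ex 1) (E 1 i)) * ((X : ℚ⟦X⟧) * eps) =
    ex i - 1 := by
  rw [X_mul_eps]
  have h : (E 1 i : Polynomial ℚ) * (Polynomial.X - 1) = Polynomial.X ^ i - 1 := by
    rw [E]
    simp only [one_mul]
    exact geom_sum_mul _ _
  have h2 := congrArg (Polynomial.aeval (ex 1)) h
  rw [map_mul, map_sub, map_sub, map_pow, Polynomial.aeval_X, map_one, ex_pow, mul_one] at h2
  exact h2

lemma X_mul_sg (i : ℕ) : (X : ℚ⟦X⟧) * sg i = ex ((i : ℚ) / 2) - ex (-(i : ℚ) / 2) := by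
  have h := aeval_E_mul_eps i
  calc (X : ℚ⟦X⟧) * sg i = ex (-(i : ℚ) / 2) * ((Polynomial.aeval (ex 1) (E 1 i)) *
        ((X : ℚ⟦X⟧) * eps)) := by rw [sg]; ring
    _ = ex (-(i : ℚ) / 2 + i) - ex (-(i : ℚ) / 2) := by rw [h, ex_add]; ring
    _ = _ := by
      congr 2
      ring

lemma coeff_sg (i k : ℕ) : coeff k (sg i) =
    (((i : ℚ) / 2) ^ (k + 1) - (-(i : ℚ) / 2) ^ (k + 1)) / (k + 1).factorial := by
  have h := congrArg (coeff (k + 1)) (X_mul_sg i)
  rw [coeff_succ_X_mul, map_sub, coeff_ex, coeff_ex] at h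
  rw [h]
  ring

lemma constantCoeff_sg (i : ℕ) : constantCoeff (sg i) = i := by
  rw [← coeff_zero_eq_constantCoeff_apply, coeff_sg]
  simp
  ring

/-- `∏_{i=1}^n (e^{iX/2} - e^{-iX/2})/X` -/
noncomputable def Pi' (n : ℕ) : ℚ⟦X⟧ := ∏ i ∈ range n, sg (i + 1)

lemma constantCoeff_Pi' (n : ℕ) : constantCoeff (Pi' n) = n.factorial := by
  rw [Pi', map_prod]
  simp only [constantCoeff_sg]
  rw [← Finset.prod_range_add_one_eq_factorial]
  push_cast
  rfl

/-- its inverse -/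
noncomputable def Th (n : ℕ) : ℚ⟦X⟧ := (Pi' n)⁻¹

lemma Th_mul (n : ℕ) : Th n * Pi' n = 1 := by
  rw [Th, PowerSeries.inv_mul_cancel]
  rw [constantCoeff_Pi']
  exact_mod_cast Nat.factorial_ne_zero n

lemma sum_half (n : ℕ) : ∑ i ∈ range n, (-(((i + 1 : ℕ) : ℚ)) / 2) = -((n : ℚ) * (n + 1) / 4) := by
  induction n with
  | zero => simp
  | succ n ih =>
    rw [Finset.sum_range_succ, ih]
    push_cast
    ring

lemma Pi'_eq (n : ℕ) : Pi' n = ex (-((n : ℚ) * (n + 1) / 4)) *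
    Polynomial.aeval (ex 1) (Lam n) * eps ^ n := by
  rw [Pi', Lam, map_prod, ← sum_half, ex_sum]
  simp only [sg]
  rw [Finset.prod_mul_distrib, Finset.prod_mul_distrib, Finset.prod_const, Finset.card_range]

/-- the polynomial part -/
noncomputable def W (n : ℕ) : ℕ → ℚ := phi (n - 1) (ex ((n : ℚ) * (n + 1) / 4) * Th n)

lemma aeval_Lam_W {n : ℕ} (hn : 1 ≤ n) (y : ℕ) : Polynomial.aeval T (Lam n) (W n) y =
    ((y + n * (n + 1) / 2 - 1).choose (n - 1) : ℕ) := by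
  rw [W, aeval_phi, phi]
  have h1 : Polynomial.aeval (ex 1) (Lam n) * (ex ((n : ℚ) * (n + 1) / 4) * Th n) =
      ex ((n : ℚ) * (n + 1) / 2) * tau ^ n := by
    have h2 : Polynomial.aeval (ex 1) (Lam n) = ex ((n : ℚ) * (n + 1) / 4) * Pi' n * tau ^ n := by
      have h3 : ex ((n : ℚ) * (n + 1) / 4) * ex (-((n : ℚ) * (n + 1) / 4)) = 1 := by
        rw [← ex_add, add_neg_cancel, ex_zero]
      have h4 : eps ^ n * tau ^ n = 1 := by
        rw [← mul_pow, mul_comm, tau_mul_eps, one_pow]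
      calc Polynomial.aeval (ex 1) (Lam n) = (ex ((n : ℚ) * (n + 1) / 4) *
            ex (-((n : ℚ) * (n + 1) / 4))) * Polynomial.aeval (ex 1) (Lam n) *
              (eps ^ n * tau ^ n) := by rw [h3, h4]; ring
        _ = _ := by rw [Pi'_eq]; ring
    have h5 : ex ((n : ℚ) * (n + 1) / 4) * ex ((n : ℚ) * (n + 1) / 4) =
        ex ((n : ℚ) * (n + 1) / 2) := by
      rw [← ex_add]
      congr 1
      ring
    rw [h2, ← h5]
    have h6 := Th_mul n
    linear_combination (ex ((n : ℚ) * (n + 1) / 4) * tau ^ n * ex ((n : ℚ) * (n + 1) / 4)) * h6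
  rw [h1, ← mul_assoc, ← ex_add]
  obtain ⟨k, rfl⟩ : ∃ k, n = k + 1 := ⟨n - 1, by omega⟩
  obtain ⟨m, hm⟩ : ∃ m, (k + 1) * (k + 1 + 1) = 2 * m := by
    have := Nat.even_mul_succ_self (k + 1)
    exact this.two_dvd
  have hk0 : k + 1 ≤ m := by nlinarith
  have hk : k ≤ m - 1 := by omega
  have h2 := res_eq k (y + m - 1) (by omega)
  rw [Nat.add_sub_cancel]
  have h3 : (((y + m - 1 : ℕ) : ℚ) + 1) = (y : ℚ) + ((k + 1 : ℕ) : ℚ) * ((k + 1 : ℕ) + 1) / 2 := by
    have h4 : (((k + 1 : ℕ) : ℚ)) * ((k + 1 : ℕ) + 1) = 2 * m := by exact_mod_cast hm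
    rw [h4, Nat.cast_sub (by nlinarith)]
    push_cast
    ring
  rw [← h3, h2, hm, Nat.mul_div_cancel_left m (by norm_num)]

end Pool.Agent.Helper30.PF
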