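import Pool.Agent.Helper30.PF.Sqrt

/-!
# The coefficient of the square root: 2-adic part
-/

namespace Pool.Agent.Helper30.PF

open Finset

/-! ### evenness -/

lemma rescale_neg_sg (i : ℕ) : PowerSeries.rescale (-1 : ℚ) (sg i) = sg i := by
  ext k
  rw [PowerSeries.coeff_rescale, coeff_sg]
  rcases Nat.even_or_odd k with h | h
  · rw [h.neg_one_pow, one_mul]
  · have : (-(i : ℚ) / 2) ^ (k + 1) = ((i : ℚ) / 2) ^ (k + 1) := by
      rw [neg_div]
      exact Even.neg_pow h.add_one _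
    rw [this]
    simp

lemma rescale_neg_Pi' (n : ℕ) : PowerSeries.rescale (-1 : ℚ) (Pi' n) = Pi' n := by
  rw [Pi', map_prod]
  exact Finset.prod_congr rfl (fun i _ => rescale_neg_sg _)

lemma rescale_neg_Th (n : ℕ) : PowerSeries.rescale (-1 : ℚ) (Th n) = Th n := by
  have h1 := congrArg (PowerSeries.rescale (-1 : ℚ)) (Th_mul n)
  rw [map_mul, rescale_neg_Pi', map_one] at h1
  have h2 := Th_mul n
  calc PowerSeries.rescale (-1 : ℚ) (Th n) =
        PowerSeries.rescale (-1 : ℚ) (Th n) * (Th n * Pi' n) := by rw [h2, mul_one]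
    _ = Th n * (PowerSeries.rescale (-1 : ℚ) (Th n) * Pi' n) := by ring
    _ = Th n := by rw [h1, mul_one]

lemma coeff_odd_of_rescale {F : PowerSeries ℚ} (h : PowerSeries.rescale (-1 : ℚ) F = F) (k : ℕ)
    (hk : k % 2 = 1) : PowerSeries.coeff k F = 0 := by
  have h := congrArg (PowerSeries.coeff k) h
  rw [PowerSeries.coeff_rescale, Odd.neg_one_pow (Nat.odd_iff.mpr hk)] at h
  linarith

lemma coeff_Th_odd (n k : ℕ) (hk : k % 2 = 1) : PowerSeries.coeff k (Th n) = 0 :=
  coeff_odd_of_rescale (rescale_neg_Th n) k hk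

lemma coeff_two_mul_series (A B : PowerSeries ℚ) : PowerSeries.coeff 2 (A * B) =
    PowerSeries.coeff 0 A * PowerSeries.coeff 2 B + PowerSeries.coeff 1 A * PowerSeries.coeff 1 B +
      PowerSeries.coeff 2 A * PowerSeries.coeff 0 B := by
  rw [PowerSeries.coeff_mul, Finset.Nat.sum_antidiagonal_eq_sum_range_succ_mk,
    Finset.sum_range_succ, Finset.sum_range_succ, Finset.sum_range_succ]
  simp

lemma coeff_two_Pi' (n : ℕ) : PowerSeries.coeff 2 (Pi' n) =
    (n.factorial : ℚ) * (n * (n + 1) * (2 * n + 1)) / 144 := by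
  induction n with
  | zero => simp [Pi', PowerSeries.coeff_one]
  | succ n ih =>
    have h1 : Pi' (n + 1) = Pi' n * sg (n + 1) := by
      rw [Pi', Pi', Finset.prod_range_succ]
    rw [h1, coeff_two_mul_series, coeff_odd_of_rescale (rescale_neg_Pi' n) 1 (by norm_num), ih,
      PowerSeries.coeff_zero_eq_constantCoeff_apply, PowerSeries.coeff_zero_eq_constantCoeff_apply,
      constantCoeff_Pi', constantCoeff_sg, coeff_sg, Nat.factorial_succ n]
    have h2 : ((2 + 1).factorial : ℚ) = 6 := by norm_num [Nat.factorial]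
    rw [h2]
    push_cast
    ring

lemma coeff_two_Th (n : ℕ) : (n.factorial : ℚ) * PowerSeries.coeff 2 (Th n) =
    -((n : ℚ) * (n + 1) * (2 * n + 1)) / 144 := by
  have h := congrArg (PowerSeries.coeff 2) (Th_mul n)
  rw [coeff_two_mul_series, coeff_two_Pi', coeff_Th_odd n 1 (by norm_num),
    PowerSeries.coeff_one, if_neg (by norm_num)] at h
  have h0 := coeff_zero_Th n
  have h1 : PowerSeries.coeff 0 (Pi' n) = n.factorial := by
    rw [PowerSeries.coeff_zero_eq_constantCoeff_apply, constantCoeff_Pi']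
  rw [h1] at h
  linear_combination h - ((n : ℚ) * (n + 1) * (2 * n + 1) / 144) * h0

lemma cc_odd (s k : ℕ) (hk : k % 2 = 1) : cc s k = 0 := by
  rw [cc, coeff_Th_odd _ k hk, mul_zero, mul_zero]

lemma cc_two (s : ℕ) : cc s 2 = -(((2 * s) * (2 * s - 1) : ℚ) * ((2 * s + 1) * (2 * s + 2) *
    (4 * s + 3))) / 144 := by
  rw [cc, coeff_two_Th]
  have h : ((2 * s).descFactorial 2 : ℚ) = (2 * s) * (2 * s - 1) := by
    rw [Nat.cast_descFactorial_two]
    push_cast
    ring
  rw [h]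
  push_cast
  ring

/-! ### the even coefficients of the square root -/

lemma sum_even_odd (f : ℕ → ℚ) (h : ∀ i, i % 2 = 1 → f i = 0) (k : ℕ) :
    ∑ l ∈ range (2 * k + 1), f l = ∑ l ∈ range (k + 1), f (2 * l) := by
  induction k with
  | zero => simp
  | succ k ih =>
    have h1 : 2 * (k + 1) + 1 = 2 * k + 1 + 1 + 1 := by ring
    rw [h1, Finset.sum_range_succ, Finset.sum_range_succ, ih, h (2 * k + 1) (by omega), add_zero,
      Finset.sum_range_succ _ (k + 1)]
    congr 1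

lemma conv_even (s k : ℕ) :
    ∑ l ∈ range (k + 1), sq (cc s) (2 * l) * sq (cc s) (2 * (k - l)) = cc s (2 * k) := by
  rw [← sq_conv (cc s) (cc_zero s) (2 * k), sum_even_odd]
  · refine Finset.sum_congr rfl (fun l _ => ?_)
    rw [Nat.mul_sub]
  · intro i hi
    rw [sq_odd (cc s) (cc_odd s) i hi, zero_mul]

/-- scaled square root coefficients -/
noncomputable def Qt (r : ℚ) (s k : ℕ) : ℚ := sq (cc s) (2 * k) * k.factorial * r ^ k

/-- scaled coefficients -/
noncomputable def Ct (r : ℚ) (s k : ℕ) : ℚ := cc s (2 * k) * k.factorial * r ^ k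

lemma conv_binom (r : ℚ) (s k : ℕ) :
    ∑ l ∈ range (k + 1), (k.choose l : ℚ) * Qt r s l * Qt r s (k - l) = Ct r s k := by
  rw [Ct, ← conv_even, Finset.sum_mul, Finset.sum_mul]
  refine Finset.sum_congr rfl (fun l hl => ?_)
  have hl' : l ≤ k := by
    have := Finset.mem_range.mp hl
    omega
  have h1 : ((k.choose l : ℚ)) * l.factorial * (k - l).factorial = k.factorial := by
    exact_mod_cast Nat.choose_mul_factorial_mul_factorial hl'
  have h2 : r ^ k = r ^ l * r ^ (k - l) := by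
    rw [← pow_add]
    congr 1
    omega
  rw [Qt, Qt, h2, ← h1]
  ring

lemma Qt_zero (r : ℚ) (s : ℕ) : Qt r s 0 = 1 := by
  simp [Qt, sq_zero]

/-! ### the recursion modulo 2 -/

lemma core (Z : Subring ℚ) (Q Cc : ℕ → ℚ) (h0 : Q 0 = 1)
    (hconv : ∀ k, ∑ l ∈ range (k + 1), (k.choose l : ℚ) * Q l * Q (k - l) = Cc k)
    (h1 : (Cc 1 - 2) / 4 ∈ Z) (h2 : ∀ k, 2 ≤ k → Cc k / 4 ∈ Z) :
    ∀ k, 1 ≤ k → (Q k - 1) / 2 ∈ Z := by
  intro k
  induction k using Nat.strong_induction_on with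
  | _ k ih =>
    intro hk
    rcases Nat.lt_or_ge k 2 with hk2 | hk2
    · obtain rfl : k = 1 := by omega
      have h := hconv 1
      rw [Finset.sum_range_succ, Finset.sum_range_succ, Finset.sum_range_zero] at h
      simp only [Nat.choose_zero_right, Nat.choose_self, Nat.cast_one, Nat.sub_zero, Nat.sub_self,
        h0] at h
      have h3 : (Q 1 - 1) / 2 = (Cc 1 - 2) / 4 := by
        rw [← h]
        ring
      rw [h3]
      exact h1
    · obtain ⟨m, rfl⟩ : ∃ m, k = m + 2 := ⟨k - 2, by omega⟩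
      have h := hconv (m + 2)
      rw [Finset.sum_range_succ, Finset.sum_range_succ'] at h
      simp only [Nat.choose_zero_right, Nat.choose_self, Nat.cast_one, Nat.sub_zero, Nat.sub_self,
        h0] at h
      have hS0 : ∑ l ∈ range (m + 1), ((m + 2).choose (l + 1) : ℚ) = 2 ^ (m + 2) - 2 := by
        have h3 := Nat.sum_range_choose (m + 2)
        rw [Finset.sum_range_succ, Finset.sum_range_succ'] at h3
        simp only [Nat.choose_zero_right, Nat.choose_self] at h3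
        have h4 : ((∑ l ∈ range (m + 1), (m + 2).choose (l + 1) : ℕ) : ℚ) + 1 + 1 = 2 ^ (m + 2) := by
          exact_mod_cast h3
        push_cast at h4
        linarith
      set e : ℕ → ℚ := fun l => (Q l - 1) / 2 with he
      have hQ : ∀ l, Q l = 1 + 2 * e l := by
        intro l
        rw [he]
        ring
      have hrefl : ∑ l ∈ range (m + 1), ((m + 2).choose (l + 1) : ℚ) * e (m + 1 - l) =
          ∑ l ∈ range (m + 1), ((m + 2).choose (l + 1) : ℚ) * e (l + 1) := by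
        rw [← Finset.sum_range_reflect]
        refine Finset.sum_congr rfl (fun l hl => ?_)
        have hl' : l ≤ m := by
          have := Finset.mem_range.mp hl
          omega
        have e1 : m + 1 - 1 - l + 1 = m + 2 - (l + 1) := by omega
        have e2 : m + 1 - (m + 1 - 1 - l) = l + 1 := by omega
        rw [e2, e1, Nat.choose_symm (by omega)]
      have hsum : ∑ l ∈ range (m + 1), ((m + 2).choose (l + 1) : ℚ) * Q (l + 1) *
          Q (m + 2 - (l + 1)) = (2 ^ (m + 2) - 2) +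
          4 * ∑ l ∈ range (m + 1), ((m + 2).choose (l + 1) : ℚ) *
            (e (l + 1) + e (l + 1) * e (m + 1 - l)) := by
        have e3 : ∀ l ∈ range (m + 1), ((m + 2).choose (l + 1) : ℚ) * Q (l + 1) *
            Q (m + 2 - (l + 1)) = ((m + 2).choose (l + 1) : ℚ) +
            2 * (((m + 2).choose (l + 1) : ℚ) * e (l + 1)) +
            2 * (((m + 2).choose (l + 1) : ℚ) * e (m + 1 - l)) +
            4 * (((m + 2).choose (l + 1) : ℚ) * (e (l + 1) * e (m + 1 - l))) := by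
          intro l _
          have e4 : m + 2 - (l + 1) = m + 1 - l := by omega
          rw [e4, hQ (l + 1), hQ (m + 1 - l)]
          ring
        rw [Finset.sum_congr rfl e3, Finset.sum_add_distrib, Finset.sum_add_distrib,
          Finset.sum_add_distrib, ← Finset.mul_sum, ← Finset.mul_sum, ← Finset.mul_sum, hrefl,
          hS0]
        simp only [mul_add, Finset.sum_add_distrib]
        ring
      rw [hsum] at h
      have h5 : (Q (m + 2) - 1) / 2 = Cc (m + 2) / 4 - 2 ^ m -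
          ∑ l ∈ range (m + 1), ((m + 2).choose (l + 1) : ℚ) *
            (e (l + 1) + e (l + 1) * e (m + 1 - l)) := by
        have h6 : (2 : ℚ) ^ (m + 2) = 4 * 2 ^ m := by ring
        rw [h6] at h
        linear_combination h / 4
      rw [h5]
      refine Z.sub_mem (Z.sub_mem (h2 (m + 2) hk2) (Z.pow_mem (by exact_mod_cast natCast_mem Z 2) m))
        (Z.sum_mem (fun l hl => ?_))
      have hl' : l ≤ m := by
        have := Finset.mem_range.mp hl
        omega
      have m1 : e (l + 1) ∈ Z := ih (l + 1) (by omega) (by omega)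
      have m2 : e (m + 1 - l) ∈ Z := ih (m + 1 - l) (by omega) (by omega)
      exact Z.mul_mem (natCast_mem Z _) (Z.add_mem m1 (Z.mul_mem m1 m2))

/-! ### the coefficient `4 q` is not 2-integral -/

lemma Ct_mem (Z : Subring ℚ) (s ρ : ℕ)
    (hA : ∀ k, (2 : ℚ) ^ k * (((2 * s + 1).factorial : ℚ) *
      PowerSeries.coeff k (Th (2 * s + 1))) ∈ Z) (k : ℕ) (hk : 2 ≤ k) :
    Ct (2 * ρ) s k / 4 ∈ Z := by
  set A := (2 : ℚ) ^ (2 * k) * (((2 * s + 1).factorial : ℚ) *
      PowerSeries.coeff (2 * k) (Th (2 * s + 1))) with hAdef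
  have h1 : ((2 * k).factorial : ℚ) = 2 ^ k * k.factorial * (2 * k - 1).doubleFactorial := by
    obtain ⟨m, rfl⟩ : ∃ m, k = m + 1 := ⟨k - 1, by omega⟩
    have e1 : 2 * (m + 1) = 2 * m + 1 + 1 := by ring
    have h := Nat.factorial_eq_mul_doubleFactorial (2 * m + 1)
    have h' := Nat.doubleFactorial_two_mul (m + 1)
    rw [e1] at h'
    rw [h'] at h
    rw [e1, Nat.add_sub_cancel, h]
    push_cast
    ring
  have h2 : ((2 * s).descFactorial (2 * k) : ℚ) = (2 * k).factorial * (2 * s).choose (2 * k) := by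
    exact_mod_cast Nat.descFactorial_eq_factorial_mul_choose (2 * s) (2 * k)
  obtain ⟨t, ht⟩ : 2 ∣ k.factorial := Nat.dvd_factorial (by norm_num) hk
  have ht' : (k.factorial : ℚ) = 2 * t := by exact_mod_cast ht
  have h3 : Ct (2 * ρ) s k / 4 = ((t ^ 2 * (2 * k - 1).doubleFactorial * (2 * s).choose (2 * k) *
      ρ ^ k : ℕ) : ℚ) * A := by
    rw [Ct, cc, h2, h1, ht', hAdef, mul_pow, pow_mul]
    push_cast
    have : (2 : ℚ) ^ 2 = 2 * 2 := by norm_num
    rw [this, mul_pow]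
    ring
  rw [h3]
  exact Z.mul_mem (natCast_mem Z _) (hA (2 * k))

lemma Ct_one_mem (Z : Subring ℚ) (h9 : (1 / 9 : ℚ) ∈ Z) (s j j' ρ : ℕ) (hs : s + 1 = 2 * j)
    (hρ : ρ * j = 2 * j') (hj' : j' % 2 = 1) : (Ct (2 * ρ) s 1 - 2) / 4 ∈ Z := by
  have hsq : (s : ℚ) = 2 * j - 1 := by
    have : ((s : ℚ) + 1) = 2 * j := by exact_mod_cast hs
    linarith
  have hρq : (ρ : ℚ) * j = 2 * j' := by exact_mod_cast hρ
  have hodd : Odd (((2 * j - 1) * (4 * j - 3) * (4 * j - 1) * (8 * j - 1) * j' : ℤ)) := by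
    have h1 : Odd (2 * (j : ℤ) - 1) := ⟨j - 1, by ring⟩
    have h2 : Odd (4 * (j : ℤ) - 3) := ⟨2 * j - 2, by ring⟩
    have h3 : Odd (4 * (j : ℤ) - 1) := ⟨2 * j - 1, by ring⟩
    have h4 : Odd (8 * (j : ℤ) - 1) := ⟨4 * j - 1, by ring⟩
    have h5 : Odd (j' : ℤ) := by
      rw [Int.odd_iff]
      omega
    exact (((h1.mul h2).mul h3).mul h4).mul h5
  obtain ⟨M, hM⟩ := hodd
  have hMq : ((2 * j - 1) * (4 * j - 3) * (4 * j - 1) * (8 * j - 1) * j' : ℚ) = 2 * M + 1 := by
    exact_mod_cast hM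
  have h3 : (Ct (2 * ρ) s 1 - 2) / 4 = ((-(M + 5) : ℤ) : ℚ) * (1 / 9) := by
    rw [Ct, mul_one, cc_two, hsq, Nat.factorial_one, Nat.cast_one, pow_one, mul_one]
    push_cast
    linear_combination (-(1 : ℚ) / 18) * hMq - ((2 * j - 1) * (4 * j - 3) * (4 * j - 1) *
      (8 * j - 1) / 36 : ℚ) * hρq
  rw [h3]
  exact Z.mul_mem (intCast_mem Z _) h9

theorem four_q_not_mem (Z : Subring ℚ) (half : (1 / 2 : ℚ) ∉ Z) (h9 : (1 / 9 : ℚ) ∈ Z)
    (s j j' ρ : ℕ) (hA : ∀ k, (2 : ℚ) ^ k * (((2 * s + 1).factorial : ℚ) *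
      PowerSeries.coeff k (Th (2 * s + 1))) ∈ Z) (hj : 2 ≤ j) (hs : s + 1 = 2 * j)
    (hρ : ρ * j = 2 * j') (hj' : j' % 2 = 1) : 4 * sq (cc s) (s + 1) ∉ Z := by
  intro hmem
  have h1 := core Z (Qt (2 * ρ) s) (Ct (2 * ρ) s) (Qt_zero _ _) (conv_binom _ _)
    (Ct_one_mem Z h9 s j j' ρ hs hρ hj') (Ct_mem Z s ρ hA) j (by omega)
  obtain ⟨t, ht⟩ : 2 ∣ j.factorial := Nat.dvd_factorial (by norm_num) hj
  have ht' : (j.factorial : ℚ) = 2 * t := by exact_mod_cast ht
  obtain ⟨i, rfl⟩ : ∃ i, j = i + 2 := ⟨j - 2, by omega⟩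
  have h2 : Qt (2 * ρ) s (i + 2) / 2 = ((t * 2 ^ i * ρ ^ (i + 2) : ℕ) : ℚ) *
      (4 * sq (cc s) (s + 1)) := by
    rw [Qt, ht', hs, mul_pow]
    push_cast
    ring
  have h3 : Qt (2 * ρ) s (i + 2) / 2 ∈ Z := by
    rw [h2]
    exact Z.mul_mem (natCast_mem Z _) hmem
  have h4 := Z.sub_mem h3 h1
  have h5 : Qt (2 * ρ) s (i + 2) / 2 - (Qt (2 * ρ) s (i + 2) - 1) / 2 = 1 / 2 := by ring
  rw [h5] at h4
  exact half h4

end Pool.Agent.Helper30.PF
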